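import Pool.Agent.Lib.MP_7903c7_al.B.Prism

/-!
Finite subsets of the polygon with `N` sides as a simplicial set: cells, faces, the prism lemma.
-/

namespace Pool.Agent.Bass.Fill

open Finsupp

/-- A cell is a set of trajectories. -/
abbrev Cell : Type := Set (List ℤ)

/-- The face that deletes slot `k`. -/
def face (k : ℕ) (A : Cell) : Cell := (fun t => t.eraseIdx k) '' A

/-- Translation of a trajectory. -/
def tr (a : ℤ) (t : List ℤ) : List ℤ := t.map (· + a)

/-- Translation of a cell by one. -/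
def shift (A : Cell) : Cell := tr 1 '' A

/-- A trajectory with `n` slots: monotone, total variation at most one. -/
def Traj (n : ℕ) (t : List ℤ) : Prop :=
  t.length = n ∧ ∀ i j, i ≤ j → j < n → t.getD i 0 ≤ t.getD j 0 ∧ t.getD j 0 ≤ t.getD i 0 + 1

/-- A nonempty `N`-periodic set of trajectories with `n` slots and at most `m` classes. -/
structure IsCell (N n m : ℕ) (A : Cell) : Prop where
  ne : A.Nonempty
  traj : ∀ t ∈ A, Traj n t
  per : ∀ t ∈ A, ∀ a : ℤ, tr (N * a) t ∈ A
  cov : ∃ F : Finset (List ℤ), F.card ≤ m ∧ ∀ t ∈ A, ∃ s ∈ F, ∃ a : ℤ, t = tr (N * a) s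

/-- Boundary of chains of cells with `n` slots (augmented for `n = 1`). -/
noncomputable def bdC (n : ℕ) : (Cell →₀ ℤ) →ₗ[ℤ] (Cell →₀ ℤ) :=
  ∑ k ∈ Finset.range n, (-1 : ℤ) ^ k • lmapDomain ℤ ℤ (face k)

lemma bdC_single (n : ℕ) (A : Cell) :
    bdC n (single A 1) = ∑ k ∈ Finset.range n, (-1 : ℤ) ^ k • single (face k A) (1 : ℤ) := by
  simp only [bdC, LinearMap.sum_apply, LinearMap.smul_apply, lmapDomain_apply, mapDomain_single]

@[simp] lemma tr_length (a : ℤ) (t : List ℤ) : (tr a t).length = t.length := by simp [tr]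

lemma tr_getD (a : ℤ) (t : List ℤ) {j : ℕ} (hj : j < t.length) :
    (tr a t).getD j 0 = t.getD j 0 + a := by
  simp [tr, List.getD_eq_getElem?_getD, List.getElem?_eq_getElem hj]

lemma tr_tr (a b : ℤ) (t : List ℤ) : tr a (tr b t) = tr (b + a) t := by
  simp [tr, Function.comp_def, add_assoc]

@[simp] lemma tr_zero (t : List ℤ) : tr 0 t = t := by simp [tr]

lemma tr_eraseIdx (a : ℤ) (t : List ℤ) (k : ℕ) : (tr a t).eraseIdx k = tr a (t.eraseIdx k) := by
  simp [tr, List.eraseIdx_map]

lemma Traj.tr {n : ℕ} {t : List ℤ} (h : Traj n t) (a : ℤ) : Traj n (tr a t) := by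
  refine ⟨by simp [h.1], fun i j hij hj => ?_⟩
  have hl := h.1
  rw [tr_getD a t (j := j) (by omega), tr_getD a t (j := i) (by omega)]
  have := h.2 i j hij hj
  omega

lemma list_ext {n : ℕ} {s t : List ℤ} (hs : s.length = n) (ht : t.length = n)
    (h : ∀ j < n, s.getD j 0 = t.getD j 0) : s = t := by
  apply List.ext_getElem (hs.trans ht.symm)
  intro i h1 h2
  have := h i (hs ▸ h1)
  simpa [List.getD_eq_getElem?_getD, List.getElem?_eq_getElem h1, List.getElem?_eq_getElem h2]
    using this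

lemma IsCell.mono {N n m m' : ℕ} {A : Cell} (h : IsCell N n m A) (hm : m ≤ m') :
    IsCell N n m' A :=
  ⟨h.ne, h.traj, h.per, h.cov.imp fun _ hF => ⟨hF.1.trans hm, hF.2⟩⟩

lemma map_range_getD {n : ℕ} {t : List ℤ} (h : t.length = n) :
    (List.range n).map (fun j => t.getD j 0) = t := by
  apply list_ext (n := n) (by simp) h
  intro j hj
  simp [List.getD_eq_getElem?_getD, List.getElem?_map, List.getElem?_range hj]

/-- Pushing chains of lists to chains of cells commutes with the boundary. -/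
lemma bdC_push {V : Type} (G : List V → Cell) (hG : ∀ l k, face k (G l) = G (l.eraseIdx k))
    (n : ℕ) {x : List V →₀ ℤ} (hx : x ∈ supported ℤ ℤ {l : List V | l.length = n}) :
    bdC n (lmapDomain ℤ ℤ G x) = lmapDomain ℤ ℤ G (bd x) := by
  refine lin_eq (bdC n ∘ₗ lmapDomain ℤ ℤ G) (lmapDomain ℤ ℤ G ∘ₗ bd) ?_ hx
  intro l hl
  have hl' : l.length = n := hl
  simp only [LinearMap.comp_apply, lmapDomain_apply, mapDomain_single, bdC_single, bd_single,
    one_smul, bdl_eq, hl', hG]
  rw [← lmapDomain_apply ℤ ℤ, map_sum]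
  simp

lemma bdl_len {V : Type} {n : ℕ} {l : List V} (hl : l.length = n + 1) :
    bdl l ∈ supported ℤ ℤ {s : List V | s.length = n} := by
  rw [bdl_eq]
  refine Submodule.sum_mem _ fun k hk => Submodule.smul_mem _ _ (single_mem_supported _ _ ?_)
  have := Finset.mem_range.1 hk
  simp only [Set.mem_ofPred_eq, List.length_eraseIdx, this, if_true]
  omega

lemma bdC_bdC (n : ℕ) {x : Cell →₀ ℤ}
    (hx : x ∈ supported ℤ ℤ {A : Cell | ∀ t ∈ A, t.length = n + 1}) :
    bdC n (bdC (n + 1) x) = 0 := by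
  refine lin_eq (bdC n ∘ₗ bdC (n + 1)) 0 ?_ hx
  intro A hA
  let G : List ℕ → Cell := fun l => (fun t : List ℤ => l.map fun j => t.getD j 0) '' A
  have hG : ∀ l k, face k (G l) = G (l.eraseIdx k) := by
    intro l k
    simp only [G, face, Set.image_image, List.eraseIdx_map]
  have h1 : G (List.range (n + 1)) = A := by
    rw [show G (List.range (n + 1)) = id '' A from
      Set.image_congr fun t ht => map_range_getD (hA t ht), Set.image_id]
  have h2 : (single A 1 : Cell →₀ ℤ) = lmapDomain ℤ ℤ G (single (List.range (n + 1)) 1) := by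
    simp [h1]
  rw [LinearMap.comp_apply, h2, bdC_push G hG (n + 1) (single_mem_supported _ _ (by simp)),
    bd_single, one_smul, bdC_push G hG n (bdl_len (by simp)), bd_bdl]
  simp

/-- The lists of the prism over `n` slots. -/
def PL (n : ℕ) : Set (List (ℕ × Bool)) :=
  {s | s.length = n + 1 ∧ (∀ p ∈ s, p.1 < n) ∧ s.Pairwise fun p q => p.1 ≤ q.1 ∧ p.2 ≤ q.2}

lemma prl_range (n : ℕ) : prl (List.range n) ∈ supported ℤ ℤ (PL n) := by
  have := prl_mem (fun a b : ℕ => a ≤ b) le_refl (List.range n)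
    (List.pairwise_lt_range.imp le_of_lt)
  refine supported_mono ?_ this
  rintro s ⟨h1, h2, h3⟩
  exact ⟨by simpa using h1, fun p hp => by simpa using h2 p hp, h3⟩

/-- The prism of a cell for the homotopy `G`. -/
noncomputable def prC (G : List (ℕ × Bool) → Cell) (n : ℕ) : Cell →₀ ℤ :=
  lmapDomain ℤ ℤ G (prl (List.range n))

lemma bdC_prC (G : List (ℕ × Bool) → Cell) (hG : ∀ l k, face k (G l) = G (l.eraseIdx k)) (n : ℕ) :
    bdC (n + 2) (prC G (n + 1)) =
      single (G (cp true (List.range (n + 1)))) 1 - single (G (cp false (List.range (n + 1)))) 1 -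
      ∑ k ∈ Finset.range (n + 1),
        (-1 : ℤ) ^ k • prC (fun l => G (l.map (Prod.map (dl k) id))) n := by
  rw [prC, bdC_push G hG (n + 2) (supported_mono (fun s hs => hs.1) (prl_range (n + 1))), bd_prl,
    map_sub, map_sub, bdl_eq, map_sum, map_sum]
  simp only [lmapDomain_apply, mapDomain_single, List.length_range, map_smul, pr_single, one_smul]
  congr 1
  refine Finset.sum_congr rfl fun k hk => ?_
  rw [range_eraseIdx n k (Nat.lt_succ_iff.1 (Finset.mem_range.1 hk)), prl_map, prC,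
    lmapDomain_apply, lmapDomain_apply, ← mapDomain_comp]
  rfl

lemma prC_congr {G G' : List (ℕ × Bool) → Cell} {n : ℕ} (h : ∀ l ∈ PL n, G l = G' l) :
    prC G n = prC G' n :=
  lin_eq _ _ (fun l hl => by simp [h l hl]) (prl_range n)

lemma prC_mem {G : List (ℕ × Bool) → Cell} {n : ℕ} {S : Set Cell} (h : ∀ l ∈ PL n, G l ∈ S) :
    prC G n ∈ supported ℤ ℤ S :=
  map_supported G h (prl_range n)

/-- The height `r` or `r + 1` of a prism vertex. -/
def hgt (r : ℕ) (b : Bool) : ℤ := if b then r + 1 else r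

lemma hgt_mono (r : ℕ) {a b : Bool} (h : a ≤ b) : hgt r a ≤ hgt r b ∧ hgt r b ≤ hgt r a + 1 := by
  cases a <;> cases b <;> simp [hgt] at h ⊢
  exact absurd h (by decide)

lemma traj_map {n : ℕ} {l : List (ℕ × Bool)} (hl : l.length = n) (f : ℕ × Bool → ℤ)
    (R : ℕ × Bool → ℕ × Bool → Prop) (hp : l.Pairwise R)
    (hf : ∀ p ∈ l, ∀ q ∈ l, R p q → f p ≤ f q ∧ f q ≤ f p + 1) : Traj n (l.map f) := by
  refine ⟨by simp [hl], fun i j hij hj => ?_⟩
  have hj' : j < l.length := hl ▸ hj
  have hi' : i < l.length := lt_of_le_of_lt hij hj'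
  simp only [List.getD_eq_getElem?_getD, List.getElem?_map, List.getElem?_eq_getElem hj',
    List.getElem?_eq_getElem hi', Option.map_some, Option.getD_some]
  rcases hij.eq_or_lt with rfl | h
  · omega
  · exact hf _ (List.getElem_mem _) _ (List.getElem_mem _)
      (List.pairwise_iff_getElem.1 hp i j hi' hj' h)

end Pool.Agent.Bass.Fill
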