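import Pool.Agent.Lib.MP_7903c7_al.B.Step1

/-!
Second homotopy (contraction to the base point), the filling lemma and the chain `c`.
-/

namespace Pool.Agent.Bass.Fill

open Finsupp

/-- The base cell with `n` slots. -/
def pt (N n : ℕ) : Cell := Set.range fun a : ℤ => tr (N * a) (List.replicate n 0)

lemma traj_replicate (n : ℕ) : Traj n (List.replicate n 0) :=
  ⟨by simp, fun i j _ _ => by simp only [replicate_getD]; omega⟩

lemma pt_cell (N n : ℕ) : IsCell N n 1 (pt N n) := by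
  refine ⟨⟨_, 0, rfl⟩, ?_, ?_, {List.replicate n 0}, by simp, ?_⟩
  · rintro _ ⟨a, rfl⟩
    exact (traj_replicate n).tr _
  · rintro _ ⟨b, rfl⟩ a
    exact ⟨b + a, by simp only [tr_tr, mul_add]⟩
  · rintro _ ⟨a, rfl⟩
    exact ⟨_, Finset.mem_singleton_self _, a, rfl⟩

lemma pt_face (N : ℕ) {n k : ℕ} (hk : k < n + 1) : face k (pt N (n + 1)) = pt N n := by
  simp [pt, face, ← Set.range_comp', tr_eraseIdx, List.eraseIdx_replicate, hk]

/-- Clamping along a prism list. -/
def clp (r : ℕ) (l : List (ℕ × Bool)) (t : List ℤ) : List ℤ :=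
  l.map fun p => max 0 (min (t.getD p.1 0) (hgt r p.2))

/-- The second homotopy. -/
def G2 (N r : ℕ) (A : Cell) (l : List (ℕ × Bool)) : Cell :=
  {x | ∃ t ∈ A, ∃ a : ℤ, x = tr (N * a) (clp r l t)}

lemma G2_face (N r : ℕ) (A : Cell) (l : List (ℕ × Bool)) (k : ℕ) :
    face k (G2 N r A l) = G2 N r A (l.eraseIdx k) := by
  ext x
  constructor
  · rintro ⟨_, ⟨t, ht, a, rfl⟩, rfl⟩
    exact ⟨t, ht, a, by simp only [tr_eraseIdx, clp, List.eraseIdx_map]⟩
  · rintro ⟨t, ht, a, rfl⟩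
    exact ⟨_, ⟨t, ht, a, rfl⟩, by simp only [tr_eraseIdx, clp, List.eraseIdx_map]⟩

lemma G2_nat (N r : ℕ) (A : Cell) (l : List (ℕ × Bool)) (k : ℕ) :
    G2 N r A (l.map (Prod.map (dl k) id)) = G2 N r (face k A) l := by
  have h : ∀ t : List ℤ, clp r (l.map (Prod.map (dl k) id)) t = clp r l (t.eraseIdx k) := by
    intro t
    simp only [clp, List.map_map, getD_eraseIdx]
    rfl
  ext x
  constructor
  · rintro ⟨t, ht, a, rfl⟩
    exact ⟨_, ⟨t, ht, rfl⟩, a, by rw [h]⟩
  · rintro ⟨_, ⟨t, ht, rfl⟩, a, rfl⟩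
    exact ⟨t, ht, a, by rw [h]⟩

lemma hgt_bd {N r : ℕ} (hr : r < N) (b : Bool) : 0 ≤ hgt r b ∧ hgt r b ≤ N := by
  cases b <;> simp [hgt] <;> omega

lemma G2_cell {N n m r : ℕ} (hr : r < N) {A : Cell} (hA : IsCell N (n + 1) m A)
    (hz : Zr (n + 1) A) {l : List (ℕ × Bool)} (hl : Mon (n + 1) l) :
    IsCell N l.length (m + 1) (G2 N r A l) := by
  classical
  have hN : 0 < N := by omega
  have hN' : (0 : ℤ) < N := by exact_mod_cast hN
  refine ⟨⟨_, _, hz, 0, rfl⟩, ?_, ?_, ?_⟩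
  · rintro _ ⟨s, hs, a, rfl⟩
    refine (traj_map rfl _ _ hl.2 fun p _ q hq h => ?_).tr _
    have h1 := (hA.traj s hs).2 _ _ h.1 (hl.1 q hq)
    have h2 := hgt_mono r h.2
    omega
  · rintro _ ⟨s, hs, b, rfl⟩ a
    exact ⟨s, hs, b + a, by simp only [tr_tr, mul_add]⟩
  · obtain ⟨F, hF, hc⟩ := hA.cov
    let nm : List ℤ → List ℤ := fun s => tr (N * (-(s.getD 0 0 / N))) s
    have hnm : ∀ (s : List ℤ) (a : ℤ), tr (N * a) s ∈ A → Traj (n + 1) (nm s) ∧
        0 ≤ (nm s).getD 0 0 ∧ (nm s).getD 0 0 < N ∧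
        tr (N * a) s = tr (N * (a + s.getD 0 0 / N)) (nm s) := by
      intro s a hs
      have h1 : tr (N * a) s = tr (N * (a + s.getD 0 0 / N)) (nm s) := by
        simp only [nm, tr_tr]
        congr 1
        ring
      have h2 : nm s = tr (N * (-(a + s.getD 0 0 / N))) (tr (N * a) s) := by
        simp only [nm, tr_tr]
        congr 1
        ring
      have hlen : s.length = n + 1 := by simpa using (hA.traj _ hs).1
      have h3 : (nm s).getD 0 0 = s.getD 0 0 % N := by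
        simp only [nm]
        rw [tr_getD _ _ (by omega), Int.emod_def]
        ring
      exact ⟨h2 ▸ (hA.traj _ hs).tr _, h3 ▸ Int.emod_nonneg _ hN'.ne',
        h3 ▸ Int.emod_lt_of_pos _ hN', h1⟩
    obtain ⟨s0, hs0, a0, h0⟩ := hc _ hz
    have hz0 : clp r l (nm s0) = l.map fun _ => 0 := by
      obtain ⟨h1, h2, h3, h4⟩ := hnm s0 a0 (h0 ▸ hz)
      have h5 : ∀ j < n + 1, (nm s0).getD j 0 + N * (a0 + s0.getD 0 0 / N) = 0 := by
        intro j hj
        rw [← tr_getD _ _ (by rw [h1.1]; exact hj), ← h4, ← h0, replicate_getD]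
      have h6 : a0 + s0.getD 0 0 / N = 0 := by
        have := h5 0 (Nat.succ_pos n)
        rcases lt_trichotomy (a0 + s0.getD 0 0 / N) 0 with h | h | h
        · nlinarith
        · exact h
        · nlinarith
      refine List.map_congr_left fun p hp => ?_
      have := h5 p.1 (hl.1 p hp)
      rw [h6] at this
      omega
    refine ⟨insert (l.map fun p => hgt r p.2) (F.image fun s => clp r l (nm s)),
      (Finset.card_insert_le _ _).trans (Nat.succ_le_succ (Finset.card_image_le.trans hF)), ?_⟩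
    rintro _ ⟨t, ht, a, rfl⟩
    obtain ⟨s, hs, b, rfl⟩ := hc t ht
    obtain ⟨h1, h2, h3, h4⟩ := hnm s b ht
    rw [h4]
    have h5 : ∀ p ∈ l, (tr (N * (b + s.getD 0 0 / N)) (nm s)).getD p.1 0 =
        (nm s).getD p.1 0 + N * (b + s.getD 0 0 / N) ∧ 0 ≤ (nm s).getD p.1 0 ∧
        (nm s).getD p.1 0 ≤ N := by
      intro p hp
      have := h1.2 0 p.1 (Nat.zero_le _) (hl.1 p hp)
      exact ⟨tr_getD _ _ (by rw [h1.1]; exact hl.1 p hp), by omega, by omega⟩
    rcases lt_trichotomy (b + s.getD 0 0 / N) 0 with h | h | h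
    · refine ⟨_, Finset.mem_insert_of_mem (Finset.mem_image_of_mem _ hs0), a, ?_⟩
      rw [hz0]
      congr 1
      refine List.map_congr_left fun p hp => ?_
      obtain ⟨h6, h7, h8⟩ := h5 p hp
      have : (N : ℤ) * (b + s.getD 0 0 / N) ≤ -N := by nlinarith
      omega
    · refine ⟨_, Finset.mem_insert_of_mem (Finset.mem_image_of_mem _ hs), a, ?_⟩
      rw [h, mul_zero, tr_zero]
    · refine ⟨_, Finset.mem_insert_self _ _, a, ?_⟩
      congr 1
      refine List.map_congr_left fun p hp => ?_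
      obtain ⟨h6, h7, h8⟩ := h5 p hp
      have : (N : ℤ) ≤ N * (b + s.getD 0 0 / N) := by nlinarith
      have := hgt_bd hr p.2
      omega

lemma G2_succ (N r : ℕ) (A : Cell) (L : List ℕ) :
    G2 N r A (cp true L) = G2 N (r + 1) A (cp false L) := by
  simp [G2, cp, clp, hgt, Function.comp_def]

lemma G2_zero (N n : ℕ) {A : Cell} (hA : A.Nonempty) :
    G2 N 0 A (cp false (List.range n)) = pt N n := by
  have h : ∀ t : List ℤ, clp 0 (cp false (List.range n)) t = List.replicate n 0 := by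
    intro t
    refine List.eq_replicate_iff.2 ⟨by simp [clp, cp], fun b hb => ?_⟩
    simp only [clp, cp, List.map_map] at hb
    obtain ⟨j, _, rfl⟩ := List.mem_map.1 hb
    simp only [Function.comp_apply, hgt, Bool.false_eq_true, if_false]
    omega
  obtain ⟨t0, ht0⟩ := hA
  ext x
  constructor
  · rintro ⟨t, _, a, rfl⟩
    exact ⟨a, by rw [h]⟩
  · rintro ⟨a, rfl⟩
    exact ⟨t0, ht0, a, by rw [h]⟩

lemma G2_top {N n m : ℕ} (hN : 0 < N) {A : Cell} (hA : IsCell N (n + 1) m A)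
    (hz : Zr (n + 1) A) : G2 N N A (cp false (List.range (n + 1))) = A := by
  have hg : ∀ (t : List ℤ), ∀ j < n + 1, (clp N (cp false (List.range (n + 1))) t).getD j 0 =
      max 0 (min (t.getD j 0) N) := by
    intro t j hj
    simp [clp, cp, hgt, List.getD_eq_getElem?_getD, List.getElem?_map, List.getElem?_range hj]
  have hlen : ∀ t : List ℤ, (clp N (cp false (List.range (n + 1))) t).length = n + 1 := by
    intro t
    simp [clp, cp]
  have hid : ∀ t ∈ A, 0 ≤ t.getD 0 0 → t.getD 0 0 < N →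
      clp N (cp false (List.range (n + 1))) t = t := by
    intro t ht h0 h1
    refine list_ext (hlen t) (hA.traj t ht).1 fun j hj => ?_
    have := (hA.traj t ht).2 0 j (Nat.zero_le _) hj
    rw [hg t j hj]
    omega
  ext x
  constructor
  · rintro ⟨t, ht, a, rfl⟩
    refine hA.per _ ?_ a
    rcases lt_or_ge (t.getD 0 0) 0 with h0 | h0
    · rw [list_ext (hlen t) (List.length_replicate (a := (0 : ℤ))) fun j hj => ?_]
      · exact hz
      · have := (hA.traj t ht).2 0 j (Nat.zero_le _) hj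
        rw [hg t j hj, replicate_getD]
        omega
    rcases lt_or_ge (t.getD 0 0) N with h1 | h1
    · rwa [hid t ht h0 h1]
    · rw [list_ext (t := tr (N * 1) (List.replicate (n + 1) 0)) (hlen t) (by simp)
        fun j hj => ?_]
      · exact hA.per _ hz 1
      · have := (hA.traj t ht).2 0 j (Nat.zero_le _) hj
        rw [hg t j hj, tr_getD _ _ (by simpa using hj), replicate_getD]
        omega
  · intro hx
    obtain ⟨a, h0, h1⟩ := exists_norm hN (t := x) (by rw [(hA.traj x hx).1]; omega)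
    refine ⟨_, hA.per x hx a, -a, ?_⟩
    rw [hid _ (hA.per x hx a) h0 h1, tr_tr]
    simp

/-- The second prism operator. -/
noncomputable def K2 (N n : ℕ) : (Cell →₀ ℤ) →ₗ[ℤ] (Cell →₀ ℤ) :=
  linearCombination ℤ fun A => ∑ r ∈ Finset.range N, prC (G2 N r A) n

/-- Collapse to the base cell. -/
noncomputable def Pt (N n : ℕ) : (Cell →₀ ℤ) →ₗ[ℤ] (Cell →₀ ℤ) :=
  lmapDomain ℤ ℤ fun _ => pt N n

lemma step2_single {N n m : ℕ} (hN : 0 < N) {A : Cell} (hA : IsCell N (n + 1) m A)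
    (hz : Zr (n + 1) A) :
    bdC (n + 2) (K2 N (n + 1) (single A 1)) + K2 N n (bdC (n + 1) (single A 1)) =
      single A 1 - Pt N (n + 1) (single A 1) := by
  rw [bdC_single, map_sum]
  simp only [K2, linearCombination_single, one_smul, map_smul, map_sum,
    bdC_prC _ (G2_face N _ A), G2_succ, Finset.sum_sub_distrib, G2_nat]
  rw [← Finset.sum_sub_distrib, Finset.sum_range_sub
    (fun r => (single (G2 N r A (cp false (List.range (n + 1)))) (1 : ℤ) : Cell →₀ ℤ)),
    G2_top hN hA hz, G2_zero N _ hA.ne, Finset.sum_comm]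
  simp only [Finset.smul_sum, Pt, lmapDomain_apply, mapDomain_single]
  abel

lemma bdC_Pt (N n : ℕ) (z : Cell →₀ ℤ) :
    bdC (n + 2) (Pt N (n + 2) z) = Pt N (n + 1) z - Pt N (n + 1) (bdC (n + 1) z) := by
  refine lin_eq (bdC (n + 2) ∘ₗ Pt N (n + 2)) (Pt N (n + 1) - Pt N (n + 1) ∘ₗ bdC (n + 1))
    (s := Set.univ) (fun A _ => ?_) (by simp)
  simp only [LinearMap.comp_apply, LinearMap.sub_apply, Pt, lmapDomain_apply, mapDomain_single,
    bdC_single]
  rw [← lmapDomain_apply ℤ ℤ, map_sum, Finset.sum_congr rfl fun k hk => by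
    rw [pt_face N (Finset.mem_range.1 hk)]]
  simp only [map_smul, lmapDomain_apply, mapDomain_single, ← Finset.sum_smul, neg_one_geom_sum]
  rcases Nat.even_or_odd n with h | h
  · simp [Nat.even_add, h]
  · simp [Nat.even_add, Nat.not_even_iff_odd.2 h]

/-- A cycle on cells of size `m` bounds a chain on cells of size `m + 2`. -/
theorem fill {N n m : ℕ} (hN : 0 < N) {z : Cell →₀ ℤ}
    (hz : z ∈ supported ℤ ℤ {A | IsCell N (n + 1) m A}) (h0 : bdC (n + 1) z = 0) :
    ∃ w ∈ supported ℤ ℤ {A | IsCell N (n + 2) (m + 2) A}, bdC (n + 2) w = z := by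
  have h1 := step1 hN hz h0
  have hK := K1_mem hN hz
  set y := bdC (n + 2) (K1 N (n + 1) z) + z with hy
  have h2 : bdC (n + 1) y = 0 := by
    rw [hy, map_add, h0, add_zero]
    exact bdC_bdC (n + 1) (supported_mono (fun A hA t ht => (hA.traj t ht).1) hK)
  have h3 := lin_eq (bdC (n + 2) ∘ₗ K2 N (n + 1) + K2 N n ∘ₗ bdC (n + 1))
    (LinearMap.id - Pt N (n + 1)) (fun A hA => step2_single hN hA.1 hA.2) h1
  simp only [LinearMap.add_apply, LinearMap.comp_apply, h2, map_zero, add_zero,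
    LinearMap.sub_apply, LinearMap.id_apply] at h3
  refine ⟨K2 N (n + 1) y + Pt N (n + 2) y - K1 N (n + 1) z,
    Submodule.sub_mem _ (Submodule.add_mem _ ?_ ?_) ?_, ?_⟩
  · refine lin_supported _ _ (fun A hA => ?_) h1
    simp only [K2, linearCombination_single, one_smul]
    refine Submodule.sum_mem _ fun r hr => prC_mem fun l hl => ?_
    have := G2_cell (Finset.mem_range.1 hr) hA.1 hA.2 (l := l) hl.2
    rwa [hl.1] at this
  · exact map_supported _ (fun _ _ => (pt_cell N (n + 2)).mono (by omega)) h1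
  · exact supported_mono (fun A hA => IsCell.mono hA (by omega)) hK
  · rw [map_sub, map_add, h3, bdC_Pt, h2, map_zero, hy]
    abel

/-- The rotation on chains of cells. -/
noncomputable def TC : Module.End ℤ (Cell →₀ ℤ) := lmapDomain ℤ ℤ shift

/-- The differentials of the periodic resolution of the cyclic group of order `N`. -/
noncomputable def dC (N i : ℕ) : Module.End ℤ (Cell →₀ ℤ) :=
  if Odd i then TC - 1 else ∑ r ∈ Finset.range N, TC ^ r

lemma face_shift (k : ℕ) (A : Cell) : face k (shift A) = shift (face k A) := by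
  simp only [face, shift, Set.image_image, tr_eraseIdx]

lemma IsCell.shift {N n m : ℕ} {A : Cell} (h : IsCell N n m A) : IsCell N n m (shift A) := by
  classical
  refine ⟨h.ne.image _, ?_, ?_, ?_⟩
  · rintro _ ⟨t, ht, rfl⟩
    exact (h.traj t ht).tr 1
  · rintro _ ⟨t, ht, rfl⟩ a
    exact ⟨_, h.per t ht a, by simp only [tr_tr, add_comm]⟩
  · obtain ⟨F, hF, hc⟩ := h.cov
    refine ⟨F.image (tr 1), Finset.card_image_le.trans hF, ?_⟩
    rintro _ ⟨t, ht, rfl⟩
    obtain ⟨s, hs, a, rfl⟩ := hc t ht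
    exact ⟨_, Finset.mem_image_of_mem _ hs, a, by simp only [tr_tr, add_comm]⟩

lemma bdC_TC (n : ℕ) (z : Cell →₀ ℤ) : bdC n (TC z) = TC (bdC n z) := by
  refine lin_eq (bdC n ∘ₗ TC) (TC ∘ₗ bdC n) (s := Set.univ) (fun A _ => ?_) (by simp)
  simp only [LinearMap.comp_apply, TC, lmapDomain_apply, mapDomain_single, bdC_single, face_shift]
  rw [← lmapDomain_apply ℤ ℤ, map_sum]
  simp

lemma bdC_TC_pow (n r : ℕ) (z : Cell →₀ ℤ) : bdC n ((TC ^ r) z) = (TC ^ r) (bdC n z) := by
  induction r with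
  | zero => simp
  | succ r ih => simp only [pow_succ', Module.End.mul_apply, bdC_TC, ih]

lemma bdC_dC (N n i : ℕ) (z : Cell →₀ ℤ) : bdC n (dC N i z) = dC N i (bdC n z) := by
  unfold dC
  split_ifs
  · simp [bdC_TC]
  · simp [LinearMap.sum_apply, bdC_TC_pow]

lemma TC_pow_single (r : ℕ) (A : Cell) : (TC ^ r) (single A 1) = single (tr r '' A) 1 := by
  induction r with
  | zero => simp
  | succ r ih =>
    rw [pow_succ', Module.End.mul_apply, ih]
    simp [TC, shift, Set.image_image, tr_tr]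

lemma TC_pow_mem {N n m : ℕ} (r : ℕ) {z : Cell →₀ ℤ}
    (hz : z ∈ supported ℤ ℤ {A | IsCell N n m A}) :
    (TC ^ r) z ∈ supported ℤ ℤ {A | IsCell N n m A} := by
  induction r with
  | zero => simpa using hz
  | succ r ih =>
    rw [pow_succ', Module.End.mul_apply]
    exact map_supported _ (fun A hA => IsCell.shift hA) ih

lemma dC_mem {N n m : ℕ} (i : ℕ) {z : Cell →₀ ℤ}
    (hz : z ∈ supported ℤ ℤ {A | IsCell N n m A}) :
    dC N i z ∈ supported ℤ ℤ {A | IsCell N n m A} := by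
  unfold dC
  split_ifs
  · exact Submodule.sub_mem _ (by simpa using TC_pow_mem 1 hz) hz
  · rw [LinearMap.sum_apply]
    exact Submodule.sum_mem _ fun r _ => TC_pow_mem r hz

lemma TC_pow_N {N n m : ℕ} {z : Cell →₀ ℤ} (hz : z ∈ supported ℤ ℤ {A | IsCell N n m A}) :
    (TC ^ N) z = z := by
  refine lin_eq (TC ^ N) LinearMap.id (fun A hA => ?_) hz
  rw [TC_pow_single, LinearMap.id_apply]
  congr 1
  ext x
  constructor
  · rintro ⟨t, ht, rfl⟩
    simpa using IsCell.per hA t ht 1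
  · intro hx
    exact ⟨_, IsCell.per hA x hx (-1), by simp [tr_tr]⟩

lemma dC_dC {N n m : ℕ} (i : ℕ) {z : Cell →₀ ℤ}
    (hz : z ∈ supported ℤ ℤ {A | IsCell N n m A}) : dC N (i + 1) (dC N i z) = 0 := by
  have h := TC_pow_N hz
  rw [← Module.End.mul_apply]
  unfold dC
  by_cases hi : Odd i
  · rw [if_pos hi, if_neg (by simpa [Nat.odd_add_one] using hi), geom_sum_mul]
    simp [h]
  · rw [if_neg hi, if_pos (by simpa [Nat.odd_add_one] using hi), mul_geom_sum]
    simp [h]

/-- The universal homotopy fixed point: `c i` lives on cells with `i + 1` slots and at most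
`2 i + 1` classes of trajectories. -/
theorem exists_chain {N : ℕ} (hN : 0 < N) :
    ∃ c : ℕ → (Cell →₀ ℤ), c 0 = single (pt N 1) 1 ∧
      (∀ i, c i ∈ supported ℤ ℤ {A | IsCell N (i + 1) (2 * i + 1) A}) ∧
      ∀ i, bdC (i + 2) (c (i + 1)) = (-1 : ℤ) ^ (i + 1) • dC N (i + 1) (c i) := by
  let P : ℕ → (Cell →₀ ℤ) → Prop := fun i z =>
    z ∈ supported ℤ ℤ {A | IsCell N (i + 1) (2 * i + 1) A} ∧ bdC (i + 1) (dC N (i + 1) z) = 0
  have h0 : P 0 (single (pt N 1) 1) := by
    refine ⟨single_mem_supported _ _ (pt_cell N 1), ?_⟩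
    rw [bdC_dC, bdC_single]
    rw [Finset.sum_range_one, pt_face N (n := 0) (k := 0) (by omega)]
    simp [dC, TC, pt, shift, tr]
  have hs : ∀ i z, P i z → ∃ w, P (i + 1) w ∧
      bdC (i + 2) w = (-1 : ℤ) ^ (i + 1) • dC N (i + 1) z := by
    intro i z hz
    obtain ⟨w, hw, hb⟩ := fill hN (Submodule.smul_mem _ ((-1 : ℤ) ^ (i + 1)) (dC_mem (i + 1) hz.1))
      (by rw [map_smul, hz.2, smul_zero])
    refine ⟨w, ⟨hw, ?_⟩, hb⟩
    rw [bdC_dC, hb, map_smul, dC_dC _ hz.1, smul_zero]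
  choose f hf using hs
  let c : (i : ℕ) → {z // P i z} := fun i =>
    Nat.rec ⟨_, h0⟩ (fun i z => ⟨f i z.1 z.2, (hf i z.1 z.2).1⟩) i
  exact ⟨fun i => (c i).1, rfl, fun i => (c i).2.1, fun i => (hf i (c i).1 (c i).2).2⟩

end Pool.Agent.Bass.Fill
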