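import Pool.Agent.Lib.MP_7903c7_al.Frob

/-! Elements of finite order (necklace count and Krull intersection), and reduction of the
conjecture to prime fields and elements of infinite order. -/

set_option autoImplicit false

namespace Pool.Agent.Lib.MP_7903c7_al.Fin

open scoped Classical
open Function

lemma orbit_sum {Y W : Type} [CommRing W] (f : Y → Y) (φ : Y → W) (d : ℕ) (s : Finset Y)
    (hφ : ∀ y ∈ s, φ (f y) = φ y) (hs : ∀ y ∈ s, f y ∈ s) (hper : ∀ y ∈ s, y ∈ periodicPts f)
    (hd : ∀ y ∈ s, d ∣ minimalPeriod f y) : (d : W) ∣ ∑ y ∈ s, φ y := by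
  induction s using Finset.strongInduction with
  | H s ih =>
    rcases s.eq_empty_or_nonempty with rfl | ⟨y, hy⟩
    · simp
    have hit : ∀ i, f^[i] y ∈ s ∧ φ (f^[i] y) = φ y := fun i => by
      induction i with
      | zero => exact ⟨hy, rfl⟩
      | succ i h => rw [iterate_succ_apply']; exact ⟨hs _ h.1, (hφ _ h.1).trans h.2⟩
    have hpos := minimalPeriod_pos_of_mem_periodicPts (hper y hy)
    set O := (Finset.range (minimalPeriod f y)).image fun i => f^[i] y with hO
    have hmem : ∀ z, z ∈ O ↔ ∃ i, f^[i] y = z := fun z => by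
      rw [hO, Finset.mem_image]
      exact ⟨fun ⟨i, _, h⟩ => ⟨i, h⟩, fun ⟨i, h⟩ => ⟨i % minimalPeriod f y,
        Finset.mem_range.2 (Nat.mod_lt _ hpos), iterate_mod_minimalPeriod_eq.trans h⟩⟩
    have hsub : O ⊆ s := fun z hz => by
      obtain ⟨i, rfl⟩ := (hmem z).1 hz
      exact (hit i).1
    rw [← Finset.sum_sdiff hsub]
    refine dvd_add (ih _ ?_ (fun z hz => hφ z (Finset.mem_sdiff.1 hz).1) (fun z hz => ?_)
      (fun z hz => hper z (Finset.mem_sdiff.1 hz).1)
      fun z hz => hd z (Finset.mem_sdiff.1 hz).1) ?_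
    · exact Finset.sdiff_ssubset hsub ⟨y, (hmem y).2 ⟨0, rfl⟩⟩
    · obtain ⟨h1, h2⟩ := Finset.mem_sdiff.1 hz
      refine Finset.mem_sdiff.2 ⟨hs z h1, fun h => h2 ?_⟩
      obtain ⟨i, hi⟩ := (hmem _).1 h
      obtain ⟨m, hm, he⟩ := hper z h1
      obtain ⟨m, rfl⟩ := Nat.exists_eq_succ_of_ne_zero hm.ne'
      refine (hmem z).2 ⟨m + i, ?_⟩
      rw [iterate_add_apply, hi]
      exact he
    · rw [hO, Finset.sum_image fun a ha b hb h => iterate_injOn_Iio_minimalPeriod
        (Finset.mem_range.1 ha) (Finset.mem_range.1 hb) h,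
        Finset.sum_congr rfl fun i _ => (hit i).2, Finset.sum_const, Finset.card_range,
        nsmul_eq_mul]
      exact (Nat.cast_dvd_cast (hd y hy)).mul_right _

/-- Words of length `n` over `S`. -/
noncomputable def words {X : Type} (S : Finset X) : ℕ → Finset (List X)
  | 0 => {[]}
  | n + 1 => (S ×ˢ words S n).image fun q => q.1 :: q.2

lemma mem_words {X : Type} (S : Finset X) (n : ℕ) (l : List X) :
    l ∈ words S n ↔ l.length = n ∧ ∀ a ∈ l, a ∈ S := by
  induction n generalizing l with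
  | zero => cases l <;> simp [words]
  | succ n ih =>
    cases l with
    | nil => simp [words]
    | cons a l => simp [words, ih, and_left_comm]

lemma sum_pow_words {X B : Type} [Ring B] (S : Finset X) (x : X → B) (n : ℕ) :
    (∑ a ∈ S, x a) ^ n = ∑ l ∈ words S n, (l.map x).prod := by
  induction n with
  | zero => simp [words]
  | succ n ih =>
    rw [pow_succ', ih, words, Finset.sum_image (by
      rintro ⟨a, l⟩ _ ⟨b, m⟩ _ h
      simpa using h), Finset.sum_product, Finset.sum_mul_sum]
    simp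

lemma prod_of_comm {M : Type} [Monoid M] (a : List M) (q : ℕ) (b : List M)
    (hb : b.length = a.length * q) (h : b ++ a = a ++ b) : b.prod = a.prod ^ q := by
  induction q generalizing b with
  | zero => simp [List.length_eq_zero_iff.1 (by simpa using hb)]
  | succ q ih =>
    obtain ⟨c, rfl⟩ : a <+: b := List.prefix_of_prefix_length_le ⟨b, h.symm⟩ ⟨a, rfl⟩
      (by rw [hb]; nlinarith)
    rw [List.prod_append, ih c (by simp at hb; nlinarith)
      (by simpa [List.append_assoc] using h), pow_succ']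

lemma prod_of_rotate {M : Type} [Monoid M] (l : List M) (k q : ℕ) (hl : l.length = k * (q + 1))
    (h : l.rotate k = l) : l.prod = (l.take k).prod ^ (q + 1) := by
  have hk : k ≤ l.length := by rw [hl]; nlinarith
  rw [List.rotate_eq_drop_append_take hk] at h
  conv_lhs => rw [← List.take_append_drop k l, List.prod_append]
  rw [prod_of_comm (l.take k) q (l.drop k) (by simp [hl, min_eq_left (hl ▸ hk)]; rw [mul_add]; omega)
    (h.trans (List.take_append_drop k l).symm), pow_succ']

lemma iterate_rotate {X : Type} (l : List X) (i : ℕ) :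
    (fun m : List X => m.rotate 1)^[i] l = l.rotate i := by
  induction i with
  | zero => simp
  | succ i ih => rw [iterate_succ_apply', ih, List.rotate_rotate]

section

variable {G W : Type} [Group G] [CommRing W] {I : Type} [Fintype I] [DecidableEq I]

/-- The homogeneous component of degree `h`. -/
noncomputable def cp (A : Matrix I I (MonoidAlgebra W G)) (h : G) : Matrix I I (MonoidAlgebra W G) :=
  Matrix.of fun i j => MonoidAlgebra.single h ((A i j).coeff h)

lemma hom_prod (A : Matrix I I (MonoidAlgebra W G)) (l : List G) (i j : I) :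
    ∃ r, (l.map (cp A)).prod i j = MonoidAlgebra.single l.prod r := by
  induction l generalizing i j with
  | nil =>
    refine ⟨if i = j then 1 else 0, ?_⟩
    rw [List.map_nil, List.prod_nil, Matrix.one_apply]
    split_ifs
    · rfl
    · simp
  | cons a l ih =>
    choose r hr using ih
    refine ⟨∑ k, (A i k).coeff a * r k j, ?_⟩
    rw [List.map_cons, List.prod_cons, Matrix.mul_apply, List.prod_cons]
    simp only [hr, cp, Matrix.of_apply, MonoidAlgebra.single_mul_single]
    exact (map_sum (MonoidAlgebra.singleAddHom (a * l.prod)) _ _).symm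

/-- The support of a matrix. -/
noncomputable def sp (A : Matrix I I (MonoidAlgebra W G)) : Finset G :=
  Finset.univ.biUnion fun q : I × I => (A q.1 q.2).coeff.support

omit [Group G] [DecidableEq I] in
lemma sum_cp (A : Matrix I I (MonoidAlgebra W G)) : ∑ h ∈ sp A, cp A h = A := by
  ext1 i j
  rw [Matrix.sum_apply]
  conv_rhs => rw [← (A i j).sum_coeff_single]
  exact (Finsupp.sum_of_support_subset _ (fun u hu =>
    Finset.mem_biUnion.mpr ⟨(i, j), Finset.mem_univ _, hu⟩)
    (fun h r => MonoidAlgebra.single h r) (by simp)).symm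

theorem necklace {p : ℕ} (hp : p.Prime) (A : Matrix I I (MonoidAlgebra W G)) (g : G) (n m : ℕ)
    (H : ∀ w ∈ words (sp A) (p ^ n), ¬ IsConj (w.prod ^ p ^ m) g) :
    ((p ^ (n + 1) : ℕ) : W) ∣ tau (fun h => IsConj h g) (A ^ p ^ (n + m)) := by
  conv => enter [2, 2, 1]; rw [← sum_cp A]
  rw [sum_pow_words, map_sum, ← Finset.sum_filter_add_sum_filter_not _
    fun l => l.rotate (p ^ n) = l]
  refine dvd_add (Dvd.intro 0 ?_) (orbit_sum (fun l => l.rotate 1) _ _ _ ?_ ?_ ?_ ?_)
  · rw [mul_zero]
    refine (Finset.sum_eq_zero fun l hl => ?_).symm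
    obtain ⟨h1, h2⟩ := Finset.mem_filter.1 hl
    obtain ⟨h3, h4⟩ := (mem_words _ _ _).1 h1
    obtain ⟨q, hq⟩ := Nat.exists_eq_succ_of_ne_zero (pow_ne_zero m hp.ne_zero)
    have h5 := prod_of_rotate l (p ^ n) q (by rw [h3, pow_add, hq]) h2
    rw [tau_apply]
    refine Finset.sum_eq_zero fun i _ => ?_
    obtain ⟨r, hr⟩ := hom_prod A l i i
    rw [hr, tau0_single, if_neg]
    rw [h5, ← Nat.succ_eq_add_one, ← hq]
    refine H _ ((mem_words _ _ _).2 ⟨?_, fun a ha => h4 a (List.mem_of_mem_take ha)⟩)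
    rw [List.length_take, h3]
    exact min_eq_left (Nat.pow_le_pow_right hp.pos (by omega))
  · intro l _
    cases l with
    | nil => rfl
    | cons a l =>
      rw [List.rotate_cons_succ, List.rotate_zero, List.map_append, List.prod_append,
        tau_mul_comm (isConj_swap g)]
      simp
  · intro l hl
    obtain ⟨h1, h2⟩ := Finset.mem_filter.1 hl
    obtain ⟨h3, h4⟩ := (mem_words _ _ _).1 h1
    refine Finset.mem_filter.2 ⟨(mem_words _ _ _).2 ⟨by simpa using h3,
      fun a ha => h4 a (List.mem_rotate.1 ha)⟩, fun h => h2 ?_⟩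
    rw [List.rotate_rotate, add_comm, ← List.rotate_rotate] at h
    exact List.rotate_injective 1 h
  · intro l hl
    refine ⟨p ^ (n + m), pow_pos hp.pos _, ?_⟩
    rw [IsPeriodicPt, IsFixedPt, iterate_rotate,
      ← ((mem_words _ _ _).1 (Finset.mem_filter.1 hl).1).1, List.rotate_length]
  · intro l hl
    obtain ⟨h1, h2⟩ := Finset.mem_filter.1 hl
    have h3 : minimalPeriod (fun l : List G => l.rotate 1) l ∣ p ^ (n + m) := by
      apply IsPeriodicPt.minimalPeriod_dvd
      rw [IsPeriodicPt, IsFixedPt, iterate_rotate, ← ((mem_words _ _ _).1 h1).1,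
        List.rotate_length]
    obtain ⟨j, -, hj⟩ := (Nat.dvd_prime_pow hp).1 h3
    rw [hj]
    refine pow_dvd_pow _ (Nat.succ_le_of_lt (not_le.1 fun hle => h2 ?_))
    have h4 := isPeriodicPt_iff_minimalPeriod_dvd.2 (hj ▸ pow_dvd_pow p hle)
    rwa [IsPeriodicPt, IsFixedPt, iterate_rotate] at h4

theorem conj_of_not_dvd {p : ℕ} (hp : p.Prime) {A : Matrix I I (MonoidAlgebra W G)}
    (hA : A * A = A) (g : G) (n : ℕ)
    (hne : ¬ ((p ^ (n + 1) : ℕ) : W) ∣ tau (fun h => IsConj h g) A) :
    ∃ m : ℕ, 0 < m ∧ IsConj g (g ^ p ^ m) := by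
  have key : ∀ m : ℕ, ∃ w ∈ words (sp A) (p ^ n), IsConj (w.prod ^ p ^ m) g := fun m => by
    by_contra hc
    push Not at hc
    have := necklace hp A g n m hc
    obtain ⟨q, hq⟩ := Nat.exists_eq_succ_of_ne_zero (pow_ne_zero (n + m) hp.ne_zero)
    rw [hq, IsIdempotentElem.pow_succ_eq q hA] at this
    exact hne this
  choose f hf1 hf2 using key
  obtain ⟨a, b, hab, he⟩ := Set.Finite.exists_lt_map_eq_of_forall_mem (f := f) hf1
    (Finset.finite_toSet _)
  obtain ⟨d, rfl⟩ := Nat.exists_eq_add_of_lt hab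
  refine ⟨d + 1, by omega, (hf2 (a + d + 1)).symm.trans ?_⟩
  rw [← he, add_assoc, pow_add, pow_mul]
  exact (hf2 a).pow _

omit [DecidableEq I] in
lemma exists_fg {R : Type} [CommRing R] {A : Matrix I I (MonoidAlgebra R G)} (hA : A * A = A) :
    ∃ (R0 : Subalgebra ℤ R) (_ : Algebra.FiniteType ℤ R0) (A0 : Matrix I I (MonoidAlgebra R0 G)),
      A0 * A0 = A0 ∧ A0.map (MonoidAlgebra.mapRingHom G R0.val.toRingHom) = A := by
  let S : Set R := ⋃ i, ⋃ j, Set.range (A i j).coeff
  have hS : S.Finite :=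
    Set.finite_iUnion fun i => Set.finite_iUnion fun j => (A i j).coeff.finite_range
  let R0 := Algebra.adjoin ℤ S
  let ι : R0 →+* R := R0.val.toRingHom
  have hι : Function.Injective ι := Subtype.val_injective
  have hex : ∀ i j, ∃ a : MonoidAlgebra R0 G, MonoidAlgebra.mapRingHom G ι a = A i j := by
    intro i j
    have : A i j ∈ Set.range (MonoidAlgebra.map (M := G) (ι : R0 →+ R)) := by
      rw [MonoidAlgebra.range_map]
      intro h
      exact ⟨⟨_, Algebra.subset_adjoin (Set.mem_iUnion₂.mpr ⟨i, j, h, rfl⟩)⟩, rfl⟩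
    exact this
  choose A0 hA0 using hex
  have hmap : (Matrix.of A0).map (MonoidAlgebra.mapRingHom G ι) = A := by
    ext1 i j
    exact hA0 i j
  have hinj : Function.Injective (MonoidAlgebra.mapRingHom G ι) :=
    MonoidAlgebra.map_injective (ι : R0 →+ R) hι
  refine ⟨R0, .adjoin_of_finite hS, Matrix.of A0, ?_, hmap⟩
  apply Matrix.map_injective hinj
  simp only
  rw [Matrix.map_mul, hmap, hA]

/-- The conjecture for elements of finite order. -/
theorem finite_order {R : Type} [CommRing R] [IsDomain R] {A : Matrix I I (MonoidAlgebra R G)}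
    (hA : A * A = A) {g : G} (h0 : orderOf g ≠ 0) (hg : ¬ IsUnit ((orderOf g : ℕ) : R)) :
    tau (fun h => IsConj h g) A = 0 := by
  obtain ⟨p, hp, hd, hu⟩ : ∃ p : ℕ, p.Prime ∧ p ∣ orderOf g ∧ ¬ IsUnit (p : R) := by
    by_contra hc
    push Not at hc
    apply hg
    rw [← Nat.prod_primeFactorsList h0, Nat.cast_list_prod]
    refine List.prod_isUnit fun x hx => ?_
    obtain ⟨q, hq, rfl⟩ := List.mem_map.1 hx
    exact hc q (Nat.prime_of_mem_primeFactorsList hq) (Nat.dvd_of_mem_primeFactorsList hq)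
  obtain ⟨R0, _, A0, h1, h2⟩ := exists_fg hA
  have : IsNoetherianRing R0 := Algebra.FiniteType.isNoetherianRing ℤ R0
  have h3 : Ideal.span {(p : R0)} ≠ ⊤ := fun h => hu (by
    simpa using (Ideal.span_singleton_eq_top.1 h).map R0.val)
  rw [← h2, tau_map]
  suffices h : tau (fun h => IsConj h g) A0 = 0 by rw [h, map_zero]
  rw [← Ideal.mem_bot, ← Ideal.iInf_pow_eq_bot_of_isDomain _ h3, Ideal.mem_iInf]
  intro n
  refine Ideal.pow_le_pow_right (Nat.le_succ n) ?_
  rw [Ideal.span_singleton_pow, Ideal.mem_span_singleton, ← Nat.cast_pow]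
  by_contra hne
  obtain ⟨m, hm, hc⟩ := conj_of_not_dvd hp h1 g n hne
  obtain ⟨c, hc⟩ := hc
  have h4 := SemiconjBy.orderOf_eq (c : G) hc
  rw [orderOf_pow' _ (pow_ne_zero m hp.ne_zero)] at h4
  have h5 : p ∣ (orderOf g).gcd (p ^ m) := Nat.dvd_gcd hd (dvd_pow_self p hm.ne')
  have h6 := Nat.le_of_dvd (Nat.gcd_pos_of_pos_left _ (Nat.pos_of_ne_zero h0)) h5
  exact (Nat.div_lt_self (Nat.pos_of_ne_zero h0) (hp.one_lt.trans_le h6)).ne' h4

/-- Reduction to algebraically closed fields of prime characteristic and infinite order. -/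
theorem of_core {g : G}
    (core : orderOf g = 0 → ∀ (k : Type) [Field k] (p : ℕ) [Fact p.Prime] [CharP k p]
      [IsAlgClosed k] (A : Matrix I I (MonoidAlgebra k G)), A * A = A →
      tau (fun h => IsConj h g) A = 0)
    {R : Type} [CommRing R] [IsDomain R] {A : Matrix I I (MonoidAlgebra R G)}
    (hA : IsIdempotentElem A) (hg : ¬ IsUnit ((orderOf g : ℕ) : R)) :
    ∑ i : I, ∑ᶠ (h : G) (_ : IsConj h g), (A i i).coeff h = 0 := by
  suffices h : tau (fun h => IsConj h g) A = 0 by
    rw [tau_apply] at h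
    simpa only [tau0_eq_finsum] using h
  by_cases h0 : orderOf g = 0
  · by_contra hne
    obtain ⟨k, _, p, hp, _, _, A', h1, h2⟩ := reduce_charP _ hA.eq hne
    have := Fact.mk hp
    exact h2 (core h0 k p A' h1)
  · exact finite_order hA.eq h0 hg

end

end Pool.Agent.Lib.MP_7903c7_al.Fin
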