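import Pool.Agent.Lib.MP_7903c7_al.Frob
import Pool.Agent.Lib.MP_7903c7_al.Padic

/-! Lifting an idempotent to a ring of characteristic `p ^ J`, with control of the `p`-adic size of
the coefficients of long group elements. -/

set_option autoImplicit false

namespace Pool.Agent.Lib.MP_7903c7_al.Lift

open scoped Classical Pointwise
open Polynomial

lemma exists_poly (n : ℕ) : ∃ f : ℤ[X], f.natDegree ≤ 2 * n + 1 ∧ X ^ (n + 1) ∣ f ∧
    (X - 1) ^ (n + 1) ∣ f - 1 := by
  have hc : IsCoprime (X : ℤ[X]) (X - 1) := ⟨1, -1, by ring⟩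
  obtain ⟨a, b, hab⟩ : IsCoprime ((X : ℤ[X]) ^ (n + 1)) ((X - 1) ^ (n + 1)) := hc.pow
  have hm1 : (X - 1 : ℤ[X]).Monic := monic_X_sub_C (1 : ℤ)
  have hd1 : (X - 1 : ℤ[X]).natDegree = 1 := natDegree_X_sub_C (1 : ℤ)
  have hm : (X ^ (n + 1) * (X - 1) ^ (n + 1) : ℤ[X]).Monic := (monic_X.pow _).mul (hm1.pow _)
  have hdeg : (X ^ (n + 1) * (X - 1) ^ (n + 1) : ℤ[X]).natDegree = 2 * n + 2 := by
    rw [(monic_X.pow _).natDegree_mul (hm1.pow _), natDegree_X_pow, hm1.natDegree_pow, hd1]
    ring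
  set P : ℤ[X] := X ^ (n + 1) * (X - 1) ^ (n + 1) with hP
  have e1 : (a * X ^ (n + 1)) %ₘ P = a * X ^ (n + 1) - P * ((a * X ^ (n + 1)) /ₘ P) := by
    rw [eq_sub_iff_add_eq, modByMonic_add_div]
  refine ⟨(a * X ^ (n + 1)) %ₘ P, Nat.lt_succ_iff.1 ?_,
    ⟨a - (X - 1) ^ (n + 1) * ((a * X ^ (n + 1)) /ₘ P), by rw [e1, hP]; ring⟩,
    ⟨-b - X ^ (n + 1) * ((a * X ^ (n + 1)) /ₘ P), by rw [e1, hP]; linear_combination hab⟩⟩
  refine lt_of_lt_of_eq (natDegree_modByMonic_lt _ hm fun h1 => ?_) hdeg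
  rw [h1, natDegree_one] at hdeg
  omega

lemma dvd_of {m : ℕ} {f : ℤ[X]} (h1 : X ^ m ∣ f) (h2 : (X - 1) ^ m ∣ f) : (X ^ 2 - X) ^ m ∣ f := by
  have hc : IsCoprime (X : ℤ[X]) (X - 1) := ⟨1, -1, by ring⟩
  have := (hc.pow (m := m) (n := m)).mul_dvd h1 h2
  rwa [← mul_pow, show (X * (X - 1) : ℤ[X]) = X ^ 2 - X by ring] at this

section

variable {G : Type} [Group G] {I : Type} [Fintype I] [DecidableEq I]

/-- Word length. -/
noncomputable def wl (S : Finset G) (h : G) : ℕ := sInf {l | h ∈ S ^ l}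

lemma wl_le {S : Finset G} {h : G} {l : ℕ} (H : h ∈ S ^ l) : wl S h ≤ l := Nat.sInf_le H

lemma mem_wl {S : Finset G} {h : G} {l : ℕ} (H : h ∈ S ^ l) : h ∈ S ^ wl S h :=
  Nat.sInf_mem (s := {l | h ∈ S ^ l}) ⟨l, H⟩

@[simp] lemma wl_one (S : Finset G) : wl S 1 = 0 := Nat.le_zero.1 (wl_le (by simp))

/-- All coefficients outside `T` vanish. -/
def In {W : Type} [CommRing W] (T : Finset G) (a : Matrix I I (MonoidAlgebra W G)) : Prop :=
  ∀ i j h, h ∉ T → (a i j).coeff h = 0

variable {W : Type} [CommRing W]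

omit [Group G] [Fintype I] [DecidableEq I] in
lemma coeff_nsmul (n : ℕ) (a : Matrix I I (MonoidAlgebra W G)) (i j : I) (h : G) :
    ((n • a) i j).coeff h = n * (a i j).coeff h := by
  rw [Matrix.smul_apply, MonoidAlgebra.coeff_smul, Finsupp.smul_apply, nsmul_eq_mul]

omit [DecidableEq I] in
lemma In.mul {T U : Finset G} {a b : Matrix I I (MonoidAlgebra W G)} (ha : In T a) (hb : In U b) :
    In (T * U) (a * b) := by
  intro i j h hh
  rw [Matrix.mul_apply, MonoidAlgebra.coeff_sum, Finsupp.finsetSum_apply]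
  refine Finset.sum_eq_zero fun k _ => ?_
  rw [MonoidAlgebra.coeff_mul_apply_left]
  refine Finset.sum_eq_zero fun u hu => ?_
  have h1 : u ∈ T := by_contra fun h => Finsupp.mem_support_iff.1 hu (ha i k u h)
  show _ * _ = _
  rw [hb k j _ fun h2 => hh (by simpa using Finset.mul_mem_mul h1 h2), mul_zero]

lemma In.pow {S : Finset G} {a : Matrix I I (MonoidAlgebra W G)} (ha : In S a) (n : ℕ) :
    In (S ^ n) (a ^ n) := by
  induction n with
  | zero =>
    intro i j h hh
    rw [pow_zero, Matrix.one_apply]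
    split_ifs
    · rw [MonoidAlgebra.one_def, MonoidAlgebra.coeff_single, Finsupp.single_eq_of_ne]
      simpa using hh
    · simp
  | succ n ih => rw [pow_succ, pow_succ]; exact ih.mul ha

lemma In.pev {S : Finset G} (h1 : (1 : G) ∈ S) {a : Matrix I I (MonoidAlgebra W G)} (ha : In S a)
    {f : ℤ[X]} {n : ℕ} (hn : f.natDegree ≤ n) : In (S ^ n) (pev a f) := by
  intro i j h hh
  rw [pev_sum a (Nat.lt_succ_of_le hn), Matrix.sum_apply, MonoidAlgebra.coeff_sum,
    Finsupp.finsetSum_apply]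
  refine Finset.sum_eq_zero fun m hm => ?_
  rw [← zsmul_eq_mul, Matrix.smul_apply]
  have := ha.pow m i j h fun h2 => hh (Finset.pow_subset_pow_right h1
    (Nat.lt_succ_iff.1 (Finset.mem_range.1 hm)) h2)
  rw [MonoidAlgebra.coeff_smul, Finsupp.smul_apply, this, smul_zero]

lemma pev_dvd {B : Type} [Ring B] {p m : ℕ} {a c : B} (hc : a * a - a = p • c) {f : ℤ[X]}
    (hf : (X ^ 2 - X) ^ m ∣ f) : ∃ d, pev a f = p ^ m • d := by
  obtain ⟨q, rfl⟩ := hf
  refine ⟨c ^ m * pev a q, ?_⟩
  rw [map_mul, map_pow, map_sub, map_pow, pev_X, sq, hc, _root_.smul_pow, smul_mul_assoc]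

theorem exists_lift {k : Type} [Field k] {p : ℕ} (π : W →+* k) (hsurj : Function.Surjective π)
    (hker : ∀ x, π x = 0 → ∃ y, x = p * y) {A : Matrix I I (MonoidAlgebra k G)} (hA : A * A = A)
    {S : Finset G} (h1 : (1 : G) ∈ S) (hS : In S A) (J : ℕ) :
    ∃ e : Matrix I I (MonoidAlgebra W G), e.map (MonoidAlgebra.mapRingHom G π) = A ∧
      (∃ d, e * e - e = p ^ J • d) ∧ In (S ^ (2 * J + 1)) e ∧
      ∀ i j h, (p : W) ^ (wl S h / 2) ∣ (e i j).coeff h := by
  choose s hs using hsurj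
  let s' : k → W := fun r => if r = 0 then 0 else s r
  have hs' : ∀ r, π (s' r) = r := fun r => by
    by_cases h : r = 0 <;> simp [s', h, hs]
  let a : Matrix I I (MonoidAlgebra W G) := Matrix.of fun i j =>
    MonoidAlgebra.ofCoeff (Finsupp.mapRange s' (by simp [s']) (A i j).coeff)
  let Φ := (MonoidAlgebra.mapRingHom G π).mapMatrix (m := I)
  have hΦ : ∀ b i j h, (Φ b i j).coeff h = π ((b i j).coeff h) := fun b i j h => by simp [Φ]
  have ha : Φ a = A := by
    ext i j h
    rw [hΦ]; simp [a, hs']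
  have haS : In S a := fun i j h hh => by simp [a, s', hS i j h hh]
  obtain ⟨c, hc⟩ : ∃ c, a * a - a = p • c := by
    have h0 : ∀ i j h, π (((a * a - a) i j).coeff h) = 0 := fun i j h => by
      rw [← hΦ, map_sub, map_mul, ha, hA, sub_self]; simp
    choose y hy using fun x : W => (show ∃ y, π x = 0 → x = p * y ∧ (x = 0 → y = 0) from by
      by_cases h : x = 0
      · exact ⟨0, fun _ => by simp [h]⟩
      · by_cases h' : π x = 0
        · exact (hker x h').imp fun y hy _ => ⟨hy, fun h2 => absurd h2 h⟩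
        · exact ⟨0, fun h2 => absurd h2 h'⟩)
    refine ⟨Matrix.of fun i j => MonoidAlgebra.ofCoeff (Finsupp.mapRange y
      ((hy 0 (map_zero π)).2 rfl) ((a * a - a) i j).coeff), ?_⟩
    ext i j h
    rw [(hy _ (h0 i j h)).1, coeff_nsmul]
    simp
  choose F hF1 hF2 hF3 using exists_poly
  have hd : ∀ j ≤ J, (X ^ 2 - X) ^ (j + 1) ∣ F J - F j := fun j hj =>
    dvd_of (dvd_sub ((pow_dvd_pow _ (by omega)).trans (hF2 J)) (hF2 j)) (by
      have := dvd_sub ((pow_dvd_pow _ (by omega : j + 1 ≤ J + 1)).trans (hF3 J)) (hF3 j)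
      rwa [sub_sub_sub_cancel_right] at this)
  have hin := haS.pev h1 (hF1 J)
  refine ⟨pev a (F J), ?_, ?_, hin, fun i j h => ?_⟩
  · show Φ _ = _
    obtain ⟨q, hq⟩ : (X ^ 2 - X) ^ 1 ∣ F J - X :=
      dvd_of (dvd_sub ((pow_dvd_pow _ (by omega)).trans (hF2 J)) (by simp)) (by
        have := dvd_sub ((pow_dvd_pow _ (by omega : 1 ≤ J + 1)).trans (hF3 J))
          (show (X - 1 : ℤ[X]) ^ 1 ∣ X - 1 by simp)
        rwa [sub_sub_sub_cancel_right] at this)
    rw [map_pev, ha, sub_eq_iff_eq_add.1 hq, map_add, map_mul, pow_one, map_sub, map_pow, pev_X,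
      sq, hA, sub_self, zero_mul, zero_add]
  · rw [← map_mul, ← map_sub]
    refine pev_dvd hc (dvd_of ?_ ?_)
    · exact ((pow_dvd_pow _ (by omega)).trans (hF2 J)).trans ⟨F J - 1, by ring⟩
    · exact ((pow_dvd_pow _ (by omega)).trans (hF3 J)).trans ⟨F J, by ring⟩
  · rcases hv : wl S h / 2 with _ | v
    · simp
    · by_cases hv' : v ≤ J
      · obtain ⟨d, hd⟩ := pev_dvd hc (hd v hv')
        have h2 := haS.pev h1 (hF1 v) i j h fun h2 => by have := wl_le h2; omega
        rw [map_sub, sub_eq_iff_eq_add] at hd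
        rw [hd, Matrix.add_apply, MonoidAlgebra.coeff_add, Finsupp.add_apply, h2, add_zero]
        exact ⟨(d i j).coeff h, by rw [coeff_nsmul, Nat.cast_pow]⟩
      · rw [hin i j h fun h2 => by have := wl_le h2; omega]
        exact dvd_zero _

/-- A convolution idempotent over a ring killed by `p ^ J` whose coefficients at long elements
are highly divisible by `p`. -/
structure IsLift (p J : ℕ) (S : Finset G) {Λ : Type} [CommRing Λ] (E : G → Matrix I I Λ) :
    Prop where
  pJ : (p : Λ) ^ J = 0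
  supp : ∀ h, h ∉ S ^ (2 * J + 1) → E h = 0
  idem : ∀ v, ∑ u ∈ S ^ (2 * J + 1), E u * E (u⁻¹ * v) = E v
  val : ∀ h, ∃ M : Matrix I I Λ, E h = (p : Λ) ^ (wl S h / 2) • M

omit [DecidableEq I] in
lemma IsLift.mem {p J : ℕ} {S : Finset G} {Λ : Type} [CommRing Λ] {E : G → Matrix I I Λ}
    (H : IsLift p J S E) {h : G} (hh : E h ≠ 0) : h ∈ S ^ wl S h :=
  mem_wl (by_contra fun h1 => hh (H.supp h h1))

/-- Valuations add up along a product. -/
lemma prod_val {Λ T : Type} [CommRing Λ] (x : Λ) (f : T → Matrix I I Λ) (v : T → ℕ) (l : List T)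
    (H : ∀ t ∈ l, ∃ M, f t = x ^ v t • M) : ∃ M, (l.map f).prod = x ^ (l.map v).sum • M := by
  induction l with
  | nil => exact ⟨1, by simp⟩
  | cons t l ih =>
    obtain ⟨M, hM⟩ := H t (by simp)
    obtain ⟨M', hM'⟩ := ih fun t ht => H t (by simp [ht])
    refine ⟨M * M', ?_⟩
    rw [List.map_cons, List.prod_cons, hM, hM', List.map_cons, List.sum_cons, pow_add,
      smul_mul_smul_comm]

/-- The length bound: letters marked by `b` are coefficients of `E`, the others are `δ₁`. -/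
theorem IsLift.len_le {p J : ℕ} {S : Finset G} {Λ T : Type} [CommRing Λ] {E : G → Matrix I I Λ}
    (H : IsLift p J S E) (b : T → Prop) (x : T → G) (l : List T)
    (hne : (l.map fun t => if b t then E (x t) else if x t = 1 then 1 else 0).prod ≠ 0) :
    (∀ t ∈ l, x t ∈ S ^ wl S (x t) ∧ (¬ b t → x t = 1)) ∧
      (l.map fun t => wl S (x t)).sum ≤ 2 * J + l.countP (fun t => b t) := by
  have h1 : ∀ t ∈ l, x t ∈ S ^ wl S (x t) ∧ (¬ b t → x t = 1) := fun t ht => by
    have h0 : (if b t then E (x t) else if x t = 1 then 1 else 0) ≠ 0 := fun h =>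
      hne (List.prod_eq_zero (List.mem_map.2 ⟨t, ht, h⟩))
    by_cases hb : b t
    · exact ⟨H.mem (by simpa [hb] using h0), fun h => absurd hb h⟩
    · have : x t = 1 := by_contra fun h => h0 (by simp [hb, h])
      exact ⟨by simp [this], fun _ => this⟩
  refine ⟨h1, ?_⟩
  obtain ⟨M, hM⟩ := prod_val (p : Λ)
    (fun t => if b t then E (x t) else if x t = 1 then 1 else 0) (fun t => wl S (x t) / 2) l
    fun t ht => by
      by_cases hb : b t
      · simpa [hb] using H.val (x t)
      · exact ⟨1, by simp [hb, (h1 t ht).2 hb]⟩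
  have h2 : (l.map fun t => wl S (x t) / 2).sum < J := not_le.1 fun h => hne (by
    rw [hM, pow_eq_zero_of_le h H.pJ, zero_smul])
  suffices h : (l.map fun t => wl S (x t)).sum ≤
      2 * (l.map fun t => wl S (x t) / 2).sum + l.countP (fun t => b t) by omega
  clear hM h2 hne
  induction l with
  | nil => simp
  | cons t l ih =>
    have h3 := ih fun t ht => h1 t (by simp [ht])
    simp only [List.map_cons, List.sum_cons, List.countP_cons]
    by_cases hb : b t
    · simp only [hb, decide_true, if_true]; omega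
    · rw [(h1 t (by simp)).2 hb, wl_one]; omega

omit [DecidableEq I] in
lemma tau_eq {T : Finset G} {a : Matrix I I (MonoidAlgebra W G)} (ha : In T a) (C : G → Prop) :
    tau C a = ∑ h ∈ T.filter C, Matrix.trace (Matrix.of fun i j => (a i j).coeff h) := by
  rw [tau_apply]
  simp only [Matrix.trace, Matrix.diag, Matrix.of_apply, Finset.sum_filter]
  rw [Finset.sum_congr rfl (g := fun i => ∑ w ∈ T, if C w then (a i i).coeff w else 0),
    Finset.sum_comm]
  · refine Finset.sum_congr rfl fun w _ => ?_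
    split_ifs <;> simp
  · intro i _
    exact Finsupp.sum_of_support_subset _
      (fun u hu => by_contra fun h => Finsupp.mem_support_iff.1 hu (ha i i u h))
      (fun w r => if C w then r else 0) (by simp)

/-- Section 0. -/
theorem lift {k : Type} [Field k] {p : ℕ} [hp : Fact p.Prime] [CharP k p] [PerfectRing k p]
    {A : Matrix I I (MonoidAlgebra k G)} (hA : A * A = A) {S : Finset G} (h1 : (1 : G) ∈ S)
    (hS : In S A) (J : ℕ) :
    ∃ (Λ : Type) (_ : CommRing Λ) (E : G → Matrix I I Λ), IsLift p J S E ∧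
      ∀ (C : G → Prop) (n : ℕ), ¬ p ^ J ∣ n →
        (n : Λ) * ∑ h ∈ (S ^ (2 * J + 1)).filter C, Matrix.trace (E h) = 0 → tau C A = 0 := by
  obtain ⟨e, he, ⟨d, hd⟩, hin, hv⟩ := exists_lift (p := p)
    (WittVector.constantCoeff (p := p) (R := k)) (fun r => ⟨WittVector.teichmuller p r, rfl⟩)
    (fun z hz => by
      obtain ⟨y, hy⟩ := Ideal.mem_span_singleton.1
        ((WittVector.mem_span_p_iff_coeff_zero_eq_zero z).mpr hz)
      exact ⟨y, hy⟩) hA h1 hS J
  let K : Ideal (WittVector p k) := Ideal.span {(p : WittVector p k) ^ J}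
  let q := Ideal.Quotient.mk K
  have hq : ((p : WittVector p k ⧸ K)) ^ J = 0 := by
    rw [← map_natCast q, ← map_pow]
    exact Ideal.Quotient.eq_zero_iff_mem.2 (Ideal.mem_span_singleton_self _)
  refine ⟨WittVector p k ⧸ K, inferInstance, fun h => Matrix.of fun i j => q ((e i j).coeff h),
    ⟨hq, fun h hh => ?_, fun v => ?_, fun h => ?_⟩, fun C n hn h0 => ?_⟩
  · ext i j
    simp [hin i j h hh]
  · ext i j
    have h2 : q (((e * e) i j).coeff v) = q ((e i j).coeff v) := by
      rw [sub_eq_iff_eq_add.1 hd, Matrix.add_apply, MonoidAlgebra.coeff_add, Finsupp.add_apply,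
        coeff_nsmul]
      simp [hq]
    rw [Matrix.of_apply, ← h2, Matrix.mul_apply]
    simp only [Matrix.sum_apply, Matrix.mul_apply, Matrix.of_apply, MonoidAlgebra.coeff_sum,
      Finsupp.finsetSum_apply, MonoidAlgebra.coeff_mul_apply_left, ← map_mul, ← map_sum]
    rw [Finset.sum_comm]
    exact congrArg q (Finset.sum_congr rfl fun l _ =>
      (Finsupp.sum_of_support_subset _
        (fun u hu => by_contra fun h => Finsupp.mem_support_iff.1 hu (hin i l u h))
        (fun h r => r * (e l j).coeff (h⁻¹ * v)) (by simp)).symm)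
  · choose M hM using fun i j => hv i j h
    refine ⟨Matrix.of fun i j => q (M i j), ?_⟩
    ext i j
    simp [hM]
  · have h2 : q (n * tau C e) = 0 := by
      rw [← h0, tau_eq hin, map_mul, map_natCast, map_sum]
      simp only [Matrix.trace, Matrix.diag, Matrix.of_apply, map_sum]
    obtain ⟨y, hy⟩ := Ideal.mem_span_singleton.1 (Ideal.Quotient.eq_zero_iff_mem.1 h2)
    obtain ⟨a, m, hm, rfl⟩ := Nat.exists_eq_pow_mul_and_not_dvd
      (n := n) (by rintro rfl; simp at hn) p hp.out.ne_one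
    obtain ⟨c, rfl⟩ := Nat.exists_eq_add_of_lt
      (not_le.1 fun h : J ≤ a => hn ((pow_dvd_pow p h).mul_right m))
    have hp0 : (p : WittVector p k) ≠ 0 := WittVector.p_nonzero p k
    have h3 : (m : WittVector p k) * tau C e = p ^ (c + 1) * y :=
      mul_left_cancel₀ (pow_ne_zero a hp0) (by
        rw [← mul_assoc, ← mul_assoc, ← pow_add, ← add_assoc, ← hy]; push_cast; ring)
    have h4 := congrArg (WittVector.constantCoeff (p := p) (R := k)) h3
    rw [map_mul, map_mul, map_pow, map_natCast, map_natCast, CharP.cast_eq_zero k p, zero_pow (by omega),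
      zero_mul, ← tau_map, he] at h4
    exact (mul_eq_zero.1 h4).resolve_left fun h => hm ((CharP.cast_eq_zero_iff k p m).1 h)

end

end Pool.Agent.Lib.MP_7903c7_al.Lift
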