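import Mathlib

/-!
Chains on lists: boundary and prism operator.
-/

namespace Pool.Agent.Bass.Fill

open Finsupp

variable {V W : Type}

/-- Prepend a vertex. -/
noncomputable def cons (v : V) : (List V →₀ ℤ) →ₗ[ℤ] (List V →₀ ℤ) :=
  lmapDomain ℤ ℤ (List.cons v)

/-- Boundary of a list (augmented). -/
noncomputable def bdl : List V → (List V →₀ ℤ)
  | [] => 0
  | v :: l => single l 1 - cons v (bdl l)

/-- Boundary of a chain of lists. -/
noncomputable def bd : (List V →₀ ℤ) →ₗ[ℤ] (List V →₀ ℤ) := linearCombination ℤ bdl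

/-- Bottom or top copy of a list. -/
def cp (b : Bool) (l : List V) : List (V × Bool) := l.map fun v => (v, b)

/-- Prism of a list. -/
noncomputable def prl : List V → (List (V × Bool) →₀ ℤ)
  | [] => 0
  | v :: l => single ((v, false) :: cp true (v :: l)) 1 - cons (v, false) (prl l)

/-- Prism of a chain of lists. -/
noncomputable def pr : (List V →₀ ℤ) →ₗ[ℤ] (List (V × Bool) →₀ ℤ) := linearCombination ℤ prl

@[simp] lemma cons_single (v : V) (l : List V) (a : ℤ) :
    cons v (single l a) = single (v :: l) a := by simp [cons]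

@[simp] lemma bd_single (l : List V) (a : ℤ) : bd (single l a) = a • bdl l := by simp [bd]

@[simp] lemma pr_single (l : List V) (a : ℤ) : pr (single l a) = a • prl l := by simp [pr]

lemma bd_cons (v : V) (x : List V →₀ ℤ) : bd (cons v x) = x - cons v (bd x) := by
  induction x using Finsupp.induction_linear with
  | zero => simp
  | add x y hx hy => simp only [map_add, hx, hy]; abel
  | single l a => simp [bdl, smul_sub]

lemma bd_bdl (l : List V) : bd (bdl l) = 0 := by
  induction l with
  | nil => simp [bdl]
  | cons v l ih => simp [bdl, bd_cons, ih]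

lemma bdl_map (f : V → W) (l : List V) :
    bdl (l.map f) = lmapDomain ℤ ℤ (List.map f) (bdl l) := by
  have h : ∀ (v : V) (x : List V →₀ ℤ), lmapDomain ℤ ℤ (List.map f) (cons v x) =
      cons (f v) (lmapDomain ℤ ℤ (List.map f) x) := by
    intro v x
    induction x using Finsupp.induction_linear with
    | zero => simp
    | add x y hx hy => simp only [map_add, hx, hy]
    | single l a => simp
  induction l with
  | nil => simp [bdl]
  | cons v l ih => simp only [List.map_cons, bdl, map_sub, h, ih]; simp

lemma pr_cons (v : V) (x : List V →₀ ℤ) : pr (cons v x) =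
    cons (v, false) (cons (v, true) (lmapDomain ℤ ℤ (cp true) x)) - cons (v, false) (pr x) := by
  induction x using Finsupp.induction_linear with
  | zero => simp
  | add x y hx hy => simp only [map_add, hx, hy]; abel
  | single l a => simp [prl, smul_sub, cp]

lemma bd_prl (l : List V) :
    bd (prl l) = single (cp true l) 1 - single (cp false l) 1 - pr (bdl l) := by
  induction l with
  | nil => simp [bdl, prl, cp]
  | cons v l ih =>
    have h1 : bdl (cp true l) = lmapDomain ℤ ℤ (cp true) (bdl l) := bdl_map _ l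
    have h2 : cp true (v :: l) = (v, true) :: cp true l := rfl
    have h3 : cp false (v :: l) = (v, false) :: cp false l := rfl
    simp only [prl, bdl, map_sub, bd_single, one_smul, bd_cons, ih, pr_single, pr_cons, h2, h3, h1,
      cons_single]
    abel

lemma prl_map (f : V → W) (l : List V) :
    prl (l.map f) = lmapDomain ℤ ℤ (List.map (Prod.map f id)) (prl l) := by
  have h : ∀ (v : V × Bool) (x : List (V × Bool) →₀ ℤ),
      lmapDomain ℤ ℤ (List.map (Prod.map f id)) (cons v x) =
      cons (Prod.map f id v) (lmapDomain ℤ ℤ (List.map (Prod.map f id)) x) := by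
    intro v x
    induction x using Finsupp.induction_linear with
    | zero => simp
    | add x y hx hy => simp only [map_add, hx, hy]
    | single l a => simp
  induction l with
  | nil => simp [prl]
  | cons v l ih =>
    simp only [List.map_cons, prl, map_sub, h, ih]
    simp [cp, Function.comp_def]

lemma bdl_eq (l : List V) :
    bdl l = ∑ k ∈ Finset.range l.length, (-1 : ℤ) ^ k • single (l.eraseIdx k) (1 : ℤ) := by
  induction l with
  | nil => simp [bdl]
  | cons v l ih =>
    rw [List.length_cons, Finset.sum_range_succ', bdl, ih, map_sum]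
    simp only [map_smul, cons_single, List.eraseIdx_cons_succ, List.eraseIdx_cons_zero, pow_zero,
      one_smul, pow_succ, mul_neg, mul_one, neg_smul, Finset.sum_neg_distrib]
    abel

lemma map_supported {α β : Type} (f : α → β) {s : Set α} {t : Set β} (h : ∀ a ∈ s, f a ∈ t)
    {x : α →₀ ℤ} (hx : x ∈ supported ℤ ℤ s) : lmapDomain ℤ ℤ f x ∈ supported ℤ ℤ t :=
  supported_comap_lmapDomain ℤ ℤ f t (supported_mono (fun a ha => h a ha) hx)

lemma lin_supported {α M : Type} [AddCommGroup M] (f : (α →₀ ℤ) →ₗ[ℤ] M) {s : Set α}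
    (U : Submodule ℤ M) (h : ∀ a ∈ s, f (single a 1) ∈ U)
    {x : α →₀ ℤ} (hx : x ∈ supported ℤ ℤ s) : f x ∈ U := by
  rw [supported_eq_span_single] at hx
  refine Submodule.span_induction ?_ (by simp) ?_ ?_ hx
  · rintro _ ⟨a, ha, rfl⟩
    exact h a ha
  · intro x y _ _ hx hy
    rw [map_add]; exact U.add_mem hx hy
  · intro c x _ hx
    rw [map_smul]; exact U.smul_mem c hx

lemma lin_eq {α M : Type} [AddCommGroup M] (f g : (α →₀ ℤ) →ₗ[ℤ] M) {s : Set α}
    (h : ∀ a ∈ s, f (single a 1) = g (single a 1))
    {x : α →₀ ℤ} (hx : x ∈ supported ℤ ℤ s) : f x = g x := by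
  have := lin_supported (f - g) ⊥ (fun a ha => by simp [h a ha]) hx
  simpa [sub_eq_zero] using this

/-- The lists that occur in the prism of `l`. -/
lemma prl_mem (R : V → V → Prop) (hR : ∀ v, R v v) (l : List V) (hl : l.Pairwise R) :
    prl l ∈ supported ℤ ℤ {s : List (V × Bool) | s.length = l.length + 1 ∧ (∀ p ∈ s, p.1 ∈ l) ∧
      s.Pairwise fun p q => R p.1 q.1 ∧ p.2 ≤ q.2} := by
  induction l with
  | nil => simp [prl]
  | cons v l ih =>
    rw [List.pairwise_cons] at hl
    refine Submodule.sub_mem _ (single_mem_supported _ _ ⟨by simp [cp], ?_, ?_⟩) ?_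
    · intro p hp
      simp only [cp, List.map_cons, List.mem_cons, List.mem_map] at hp ⊢
      rcases hp with rfl | rfl | ⟨a, ha, rfl⟩ <;> simp [*]
    · simp only [cp, List.map_cons, List.pairwise_cons, List.mem_cons, List.mem_map,
        List.pairwise_map]
      refine ⟨?_, ?_, hl.2.imp fun h => ⟨h, le_rfl⟩⟩
      · rintro p (rfl | ⟨a, ha, rfl⟩)
        · exact ⟨hR v, by simp⟩
        · exact ⟨hl.1 a ha, by simp⟩
      · rintro p ⟨a, ha, rfl⟩
        exact ⟨hl.1 a ha, le_rfl⟩
    · refine map_supported (List.cons (v, false)) ?_ (ih hl.2)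
      rintro t ⟨h1, h2, h3⟩
      refine ⟨by simp [h1], ?_, ?_⟩
      · intro p hp
        rcases List.mem_cons.1 hp with rfl | hp
        · simp
        · exact List.mem_cons_of_mem _ (h2 p hp)
      · exact List.pairwise_cons.2 ⟨fun p hp => ⟨hl.1 _ (h2 p hp), by simp⟩, h3⟩

/-- The coface map. -/
def dl (k j : ℕ) : ℕ := if j < k then j else j + 1

lemma range_eraseIdx (n k : ℕ) (hk : k ≤ n) :
    (List.range (n + 1)).eraseIdx k = (List.range n).map (dl k) := by
  apply List.ext_getElem
  · simp [List.length_eraseIdx, Nat.lt_succ_of_le hk]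
  · intro i h1 h2
    rw [List.getElem_eraseIdx]
    by_cases h : i < k <;> simp [dl, h]

lemma getD_eraseIdx (t : List ℤ) (k j : ℕ) : (t.eraseIdx k).getD j 0 = t.getD (dl k j) 0 := by
  simp only [List.getD_eq_getElem?_getD, List.getElem?_eraseIdx, dl]
  split_ifs <;> rfl

end Pool.Agent.Bass.Fill
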