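import Pool.Agent.Lib.MP_7903c7_al.B.Cell

/-!
First homotopy: add a point that moves from the top trajectory to the base point.
-/

namespace Pool.Agent.Bass.Fill

open Finsupp

/-- The cell contains the constant trajectory at the base point. -/
def Zr (n : ℕ) (A : Cell) : Prop := List.replicate n (0 : ℤ) ∈ A

/-- Reading a trajectory along a prism list. -/
def pull (l : List (ℕ × Bool)) (t : List ℤ) : List ℤ := l.map fun p => t.getD p.1 0

lemma pull_tr {l : List (ℕ × Bool)} {t : List ℤ} (h : ∀ p ∈ l, p.1 < t.length) (a : ℤ) :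
    pull l (tr a t) = tr a (pull l t) := by
  simp only [pull, tr, List.map_map]
  exact List.map_congr_left fun p hp => tr_getD a t (h p hp)

lemma pull_face (l : List (ℕ × Bool)) (t : List ℤ) (k : ℕ) :
    pull l (t.eraseIdx k) = pull (l.map (Prod.map (dl k) id)) t := by
  simp only [pull, List.map_map, getD_eraseIdx]
  rfl

lemma pull_range {n : ℕ} {t : List ℤ} (h : t.length = n) (b : Bool) :
    pull (cp b (List.range n)) t = t := by
  simp only [pull, cp, List.map_map]
  exact map_range_getD h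

lemma replicate_getD (n j : ℕ) : (List.replicate n (0 : ℤ)).getD j 0 = 0 := by
  simp only [List.getD_eq_getElem?_getD, List.getElem?_replicate]
  split_ifs <;> rfl

/-- Monotone prism lists with entries below `n`. -/
def Mon (n : ℕ) (l : List (ℕ × Bool)) : Prop :=
  (∀ p ∈ l, p.1 < n) ∧ l.Pairwise fun p q => p.1 ≤ q.1 ∧ p.2 ≤ q.2

lemma mon_range (n : ℕ) (b : Bool) : Mon n (cp b (List.range n)) := by
  refine ⟨fun p hp => ?_, ?_⟩
  · simp only [cp, List.mem_map, List.mem_range] at hp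
    obtain ⟨a, ha, rfl⟩ := hp
    exact ha
  · simp only [cp, List.pairwise_map]
    exact List.pairwise_lt_range.imp fun h => ⟨h.le, le_rfl⟩

lemma Mon.dl {n : ℕ} {l : List (ℕ × Bool)} (h : Mon n l) (k : ℕ) :
    Mon (n + 1) (l.map (Prod.map (dl k) id)) := by
  refine ⟨fun p hp => ?_, ?_⟩
  · obtain ⟨q, hq, rfl⟩ := List.mem_map.1 hp
    have := h.1 q hq
    simp only [Prod.map_fst, Fill.dl]
    split_ifs <;> omega
  · rw [List.pairwise_map]
    refine h.2.imp fun {a b} hab => ⟨?_, hab.2⟩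
    have := hab.1
    simp only [Prod.map_fst, Fill.dl]
    split_ifs <;> omega

lemma exists_norm {N : ℕ} (hN : 0 < N) {t : List ℤ} (ht : 0 < t.length) :
    ∃ a : ℤ, 0 ≤ (tr (N * a) t).getD 0 0 ∧ (tr (N * a) t).getD 0 0 < N := by
  refine ⟨-(t.getD 0 0 / N), ?_⟩
  rw [tr_getD _ _ ht]
  have h0 : (0 : ℤ) < N := by exact_mod_cast hN
  have h1 := Int.emod_nonneg (t.getD 0 0) h0.ne'
  have h2 := Int.emod_lt_of_pos (t.getD 0 0) h0
  have h3 := Int.emod_add_mul_ediv (t.getD 0 0) N
  constructor <;> nlinarith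

lemma exists_top {N n m : ℕ} (hN : 0 < N) {A : Cell} (hA : IsCell N (n + 1) m A) :
    ∃ t ∈ A, 0 ≤ t.getD 0 0 ∧ t.getD 0 0 < N ∧
      ∀ s ∈ A, s.getD 0 0 < N → ∀ j < n + 1, s.getD j 0 ≤ t.getD j 0 := by
  obtain ⟨t0, ht0⟩ := hA.ne
  obtain ⟨a, ha0, ha1⟩ := exists_norm hN (t := t0) (by rw [(hA.traj t0 ht0).1]; omega)
  obtain ⟨x, ⟨t, ht, htN, rfl⟩, hmax⟩ := Int.exists_greatest_of_bdd
    (P := fun x => ∃ t ∈ A, t.getD 0 0 < N ∧ x = ∑ j ∈ Finset.range (n + 1), t.getD j 0)
    ⟨∑ j ∈ Finset.range (n + 1), (N : ℤ), by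
      rintro _ ⟨t, ht, htN, rfl⟩
      refine Finset.sum_le_sum fun j hj => ?_
      have := (hA.traj t ht).2 0 j (Nat.zero_le _) (Finset.mem_range.1 hj)
      omega⟩
    ⟨_, _, hA.per t0 ht0 a, ha1, rfl⟩
  have key : ∀ s ∈ A, s.getD 0 0 < N → ∀ j < n + 1, s.getD j 0 ≤ t.getD j 0 := by
    intro s hs hsN j hj
    by_contra hlt
    have hlt' : t.getD j 0 < s.getD j 0 := lt_of_not_ge hlt
    have hle : ∀ i < n + 1, t.getD i 0 ≤ s.getD i 0 := by
      intro i hi
      rcases le_total i j with h | h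
      · have h1 := (hA.traj s hs).2 i j h hj
        have h2 := (hA.traj t ht).2 i j h hj
        omega
      · have h1 := (hA.traj s hs).2 j i h hi
        have h2 := (hA.traj t ht).2 j i h hi
        omega
    have h1 := hmax _ ⟨s, hs, hsN, rfl⟩
    have h2 : ∑ j ∈ Finset.range (n + 1), t.getD j 0 < ∑ j ∈ Finset.range (n + 1), s.getD j 0 :=
      Finset.sum_lt_sum (fun i hi => hle i (Finset.mem_range.1 hi))
        ⟨j, Finset.mem_range.2 hj, hlt'⟩
    omega
  exact ⟨t, ht, ha0.trans (key _ (hA.per t0 ht0 a) ha1 0 (Nat.succ_pos n)), htN, key⟩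

/-- The top trajectory among those that start below `N`. -/
noncomputable def topv (N : ℕ) (A : Cell) (j : ℕ) : ℤ :=
  sSup {x | ∃ t ∈ A, t.getD 0 0 < N ∧ x = t.getD j 0}

lemma exists_topv {N n m : ℕ} (hN : 0 < N) {A : Cell} (hA : IsCell N (n + 1) m A) :
    ∃ t ∈ A, 0 ≤ t.getD 0 0 ∧ t.getD 0 0 < N ∧ ∀ j < n + 1, topv N A j = t.getD j 0 := by
  obtain ⟨t, ht, h0, h1, h2⟩ := exists_top hN hA
  refine ⟨t, ht, h0, h1, fun j hj => IsGreatest.csSup_eq ⟨⟨t, ht, h1, rfl⟩, ?_⟩⟩
  rintro _ ⟨s, hs, hsN, rfl⟩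
  exact h2 s hs hsN j hj

lemma topv_face {N n m k : ℕ} {A : Cell} (hA : IsCell N (n + 1) m A)
    (hz : ¬ Zr n (face k A)) {j : ℕ} (hj : j < n) : topv N (face k A) j = topv N A (dl k j) := by
  have key : ∀ t ∈ A, (t.getD (dl k 0) 0 < N ↔ t.getD 0 0 < N) := by
    intro t ht
    have hT := hA.traj t ht
    rcases Nat.eq_zero_or_pos k with rfl | hk
    · have h1 := hT.2 0 1 (by omega) (by omega)
      have h0 : dl 0 0 = 1 := rfl
      rw [h0]
      refine ⟨fun h => by omega, fun h => ?_⟩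
      by_contra hc
      refine hz ⟨tr (N * (-1)) t, hA.per t ht _, ?_⟩
      have hl := hT.1
      refine list_ext (n := n) (by simp [hl]) (by simp) fun i hi => ?_
      have h2 : dl 0 i = i + 1 := by simp [dl]
      rw [getD_eraseIdx, h2, tr_getD _ _ (by omega), replicate_getD]
      have h3 := hT.2 0 (i + 1) (by omega) (by omega)
      have h4 := hT.2 1 (i + 1) (by omega) (by omega)
      omega
    · simp [dl, hk]
  unfold topv
  congr 1
  ext x
  constructor
  · rintro ⟨_, ⟨t, ht, rfl⟩, h1, rfl⟩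
    simp only [getD_eraseIdx] at h1 ⊢
    exact ⟨t, ht, (key t ht).1 h1, rfl⟩
  · rintro ⟨t, ht, h1, rfl⟩
    refine ⟨_, ⟨t, ht, rfl⟩, ?_, ?_⟩ <;> simp only [getD_eraseIdx]
    exact (key t ht).2 h1

/-- The first homotopy. -/
def G1 (N r : ℕ) (A : Cell) (l : List (ℕ × Bool)) : Cell :=
  pull l '' A ∪ Set.range fun a : ℤ =>
    tr (N * a) (l.map fun p => max (topv N A p.1) (hgt r p.2))

lemma G1_face (N r : ℕ) (A : Cell) (l : List (ℕ × Bool)) (k : ℕ) :
    face k (G1 N r A l) = G1 N r A (l.eraseIdx k) := by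
  simp only [G1, face, Set.image_union, Set.image_image, ← Set.range_comp', tr_eraseIdx, pull,
    List.eraseIdx_map]

lemma G1_cell {N n m : ℕ} (hN : 0 < N) {A : Cell} (hA : IsCell N (n + 1) m A) (r : ℕ)
    {l : List (ℕ × Bool)} (hl : Mon (n + 1) l) : IsCell N l.length (m + 1) (G1 N r A l) := by
  classical
  obtain ⟨t, ht, -, -, htop⟩ := exists_topv hN hA
  refine ⟨⟨_, Or.inr ⟨0, rfl⟩⟩, ?_, ?_, ?_⟩
  · rintro _ (⟨s, hs, rfl⟩ | ⟨a, rfl⟩)
    · exact traj_map rfl _ _ hl.2 fun p _ q hq h => (hA.traj s hs).2 _ _ h.1 (hl.1 q hq)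
    · refine (traj_map rfl _ _ hl.2 fun p hp q hq h => ?_).tr _
      rw [htop _ (hl.1 p hp), htop _ (hl.1 q hq)]
      have h1 := (hA.traj t ht).2 _ _ h.1 (hl.1 q hq)
      have h2 := hgt_mono r h.2
      omega
  · rintro _ (⟨s, hs, rfl⟩ | ⟨b, rfl⟩) a
    · exact Or.inl ⟨_, hA.per s hs a, pull_tr (fun p hp => (hA.traj s hs).1 ▸ hl.1 p hp) _⟩
    · exact Or.inr ⟨b + a, by simp only [tr_tr, mul_add]⟩
  · obtain ⟨F, hF, hc⟩ := hA.cov
    refine ⟨insert (l.map fun p => max (topv N A p.1) (hgt r p.2)) (F.image (pull l)),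
      (Finset.card_insert_le _ _).trans (Nat.succ_le_succ (Finset.card_image_le.trans hF)), ?_⟩
    rintro _ (⟨s, hs, rfl⟩ | ⟨a, rfl⟩)
    · obtain ⟨u, hu, a, rfl⟩ := hc s hs
      have hlen : u.length = n + 1 := by simpa using (hA.traj _ hs).1
      exact ⟨_, Finset.mem_insert_of_mem (Finset.mem_image_of_mem _ hu), a,
        pull_tr (fun p hp => hlen ▸ hl.1 p hp) _⟩
    · exact ⟨_, Finset.mem_insert_self _ _, a, rfl⟩

lemma G1_succ (N r : ℕ) (A : Cell) (L : List ℕ) :
    G1 N r A (cp true L) = G1 N (r + 1) A (cp false L) := by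
  simp [G1, cp, pull, hgt, Function.comp_def]

lemma G1_zero {N n m : ℕ} (hN : 0 < N) {A : Cell} (hA : IsCell N (n + 1) m A) :
    G1 N 0 A (cp false (List.range (n + 1))) = A := by
  obtain ⟨t, ht, h0, -, htop⟩ := exists_topv hN hA
  have h1 : pull (cp false (List.range (n + 1))) '' A = A := by
    rw [show pull (cp false (List.range (n + 1))) '' A = id '' A from
      Set.image_congr fun s hs => pull_range (hA.traj s hs).1 false, Set.image_id]
  have h2 : ((cp false (List.range (n + 1))).map fun p => max (topv N A p.1) (hgt 0 p.2)) = t := by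
    rw [← map_range_getD (hA.traj t ht).1, cp, List.map_map]
    refine List.map_congr_left fun j hj => ?_
    have hj' := List.mem_range.1 hj
    have := (hA.traj t ht).2 0 j (Nat.zero_le _) hj'
    simp only [Function.comp_apply, htop j hj', hgt, Bool.false_eq_true, if_false]
    omega
  rw [G1, h1, h2]
  refine Set.union_eq_self_of_subset_right ?_
  rintro _ ⟨a, rfl⟩
  exact hA.per t ht a

lemma G1_top {N n m : ℕ} (hN : 0 < N) {A : Cell} (hA : IsCell N (n + 1) m A) :
    Zr (n + 1) (G1 N N A (cp false (List.range (n + 1)))) := by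
  obtain ⟨t, ht, -, h1, htop⟩ := exists_topv hN hA
  refine Or.inr ⟨-1, ?_⟩
  simp only [cp, List.map_map, tr]
  refine List.eq_replicate_iff.2 ⟨by simp, fun b hb => ?_⟩
  obtain ⟨j, hj, rfl⟩ := List.mem_map.1 hb
  have hj' := List.mem_range.1 hj
  have := (hA.traj t ht).2 0 j (Nat.zero_le _) hj'
  simp only [Function.comp_apply, htop j hj', hgt, Bool.false_eq_true, if_false]
  omega

open Classical in
/-- The first prism operator. -/
noncomputable def K1 (N n : ℕ) : (Cell →₀ ℤ) →ₗ[ℤ] (Cell →₀ ℤ) :=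
  linearCombination ℤ fun A => if Zr n A then 0 else ∑ r ∈ Finset.range N, prC (G1 N r A) n

lemma K1_mem {N n m : ℕ} (hN : 0 < N) {z : Cell →₀ ℤ}
    (hz : z ∈ supported ℤ ℤ {A | IsCell N (n + 1) m A}) :
    K1 N (n + 1) z ∈ supported ℤ ℤ {A | IsCell N (n + 2) (m + 1) A} := by
  refine lin_supported _ _ (fun A hA => ?_) hz
  simp only [K1, linearCombination_single, one_smul]
  split_ifs
  · exact Submodule.zero_mem _
  · refine Submodule.sum_mem _ fun r _ => prC_mem fun l hl => ?_
    have := G1_cell hN hA r (l := l) hl.2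
    rwa [hl.1] at this

lemma step1_single {N n m : ℕ} (hN : 0 < N) {A : Cell} (hA : IsCell N (n + 1) m A) :
    bdC (n + 2) (K1 N (n + 1) (single A 1)) + K1 N n (bdC (n + 1) (single A 1)) + single A 1 ∈
      supported ℤ ℤ {B | IsCell N (n + 1) (m + 1) B ∧ Zr (n + 1) B} := by
  classical
  rw [bdC_single, map_sum]
  simp only [K1, linearCombination_single, one_smul, map_smul]
  by_cases hz : Zr (n + 1) A
  · have : ∀ k ∈ Finset.range (n + 1), Zr n (face k A) := fun k hk =>
      ⟨_, hz, by simp [List.eraseIdx_replicate, Finset.mem_range.1 hk]⟩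
    rw [if_pos hz, map_zero, Finset.sum_eq_zero fun k hk => by rw [if_pos (this k hk), smul_zero]]
    rw [zero_add, zero_add]
    exact single_mem_supported _ _ ⟨hA.mono (Nat.le_succ m), hz⟩
  · rw [if_neg hz, map_sum]
    simp only [bdC_prC _ (G1_face N _ A), G1_succ, Finset.sum_sub_distrib]
    rw [← Finset.sum_sub_distrib, Finset.sum_range_sub
      (fun r => (single (G1 N r A (cp false (List.range (n + 1)))) (1 : ℤ) : Cell →₀ ℤ)),
      G1_zero hN hA, Finset.sum_comm]
    have h1 : (single (G1 N N A (cp false (List.range (n + 1)))) (1 : ℤ) : Cell →₀ ℤ) ∈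
        supported ℤ ℤ {B | IsCell N (n + 1) (m + 1) B ∧ Zr (n + 1) B} := by
      refine single_mem_supported _ _ ⟨?_, G1_top hN hA⟩
      simpa [cp] using G1_cell hN hA N (mon_range (n + 1) false)
    have h2 : ∀ k ∈ Finset.range (n + 1),
        ((-1 : ℤ) ^ k • if Zr n (face k A) then 0 else
          ∑ r ∈ Finset.range N, prC (G1 N r (face k A)) n) -
        ∑ r ∈ Finset.range N, (-1 : ℤ) ^ k •
          prC (fun l => G1 N r A (l.map (Prod.map (dl k) id))) n ∈
        supported ℤ ℤ {B | IsCell N (n + 1) (m + 1) B ∧ Zr (n + 1) B} := by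
      intro k _
      rw [← Finset.smul_sum, ← smul_sub]
      refine Submodule.smul_mem _ _ ?_
      split_ifs with hf
      · rw [zero_sub]
        refine Submodule.neg_mem _ (Submodule.sum_mem _ fun r _ => prC_mem fun l hl => ⟨?_, ?_⟩)
        · have := G1_cell hN hA r (Mon.dl (l := l) hl.2 k)
          rwa [List.length_map, hl.1] at this
        · obtain ⟨t, ht, ht0⟩ := hf
          refine Or.inl ⟨t, ht, ?_⟩
          have ht1 : t.eraseIdx k = List.replicate n 0 := ht0
          rw [← pull_face, ht1]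
          refine List.eq_replicate_iff.2 ⟨by simp [pull, hl.1], fun b hb => ?_⟩
          obtain ⟨p, _, rfl⟩ := List.mem_map.1 hb
          exact replicate_getD _ _
      · rw [Finset.sum_congr rfl fun r _ => prC_congr
          (G' := fun l => G1 N r A (l.map (Prod.map (dl k) id))) fun l hl => ?_]
        · simp
        · simp only [G1, face, Set.image_image, pull_face, List.map_map]
          congr 4
          funext a
          congr 1
          exact List.map_congr_left fun p hp => by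
            rw [show (fun t : List ℤ => t.eraseIdx k) '' A = face k A from rfl,
              topv_face hA hf (hl.2.1 p hp)]
            rfl
    have h3 := Submodule.add_mem _ h1 (Submodule.sum_mem _ h2)
    rw [Finset.sum_sub_distrib] at h3
    convert h3 using 1
    abel

lemma step1 {N n m : ℕ} (hN : 0 < N) {z : Cell →₀ ℤ}
    (hz : z ∈ supported ℤ ℤ {A | IsCell N (n + 1) m A}) (h0 : bdC (n + 1) z = 0) :
    bdC (n + 2) (K1 N (n + 1) z) + z ∈
      supported ℤ ℤ {B | IsCell N (n + 1) (m + 1) B ∧ Zr (n + 1) B} := by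
  have := lin_supported (bdC (n + 2) ∘ₗ K1 N (n + 1) + K1 N n ∘ₗ bdC (n + 1) + LinearMap.id) _
    (fun A hA => step1_single hN hA) hz
  simpa [h0] using this

end Pool.Agent.Bass.Fill
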